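import Pool.Agent.Run7.h23.Gn.Main

/-!
# The conditions in terms of ideals
-/

set_option autoImplicit false
set_option linter.all false

open Polynomial IsDedekindDomain WithZero NumberField
open scoped Classical

namespace Run7.h23.Gn

section

variable {F K : Type} [Field F] [NumberField F] [Field K] [NumberField K] [Algebra F K]

/-- `v` splits completely in `K`, in terms of ideals. -/
def SpI (K : Type) [Field K] [NumberField K] [Algebra F K] (v : HeightOneSpectrum (𝓞 F)) : Prop :=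
  ∀ w : HeightOneSpectrum (𝓞 K), v.asIdeal.map (algebraMap (𝓞 F) (𝓞 K)) ≤ w.asIdeal →
    ¬ v.asIdeal.map (algebraMap (𝓞 F) (𝓞 K)) ≤ w.asIdeal ^ 2 ∧
      ∀ y : 𝓞 K, ∃ x : 𝓞 F, y - algebraMap (𝓞 F) (𝓞 K) x ∈ w.asIdeal

theorem sp_of_spI {v : HeightOneSpectrum (𝓞 F)} (h : SpI K v) : Sp v K := by
  intro w hw
  have h1 : v.asIdeal.map (algebraMap (𝓞 F) (𝓞 K)) ≤ w.asIdeal :=
    Ideal.map_le_iff_le_comap.2 fun a ha => ov_of_ab hw a ha
  obtain ⟨h2, h3⟩ := h w h1
  refine ⟨fun x => un_of h1 h2 x, fun m hm => ?_⟩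
  obtain ⟨y, hy⟩ := w.exists_valuation_sub_lt_of_integer (K := K) hm 1
  have hy1 : w.valuation K (algebraMap (𝓞 K) K y - m) < 1 := by exact_mod_cast hy
  obtain ⟨x, hx⟩ := h3 y
  refine ⟨(x : F), ?_⟩
  rw [← HeightOneSpectrum.valuation_lt_one_iff_mem (K := K)] at hx
  have hx' : w.valuation K (algebraMap (𝓞 K) K (y - algebraMap (𝓞 F) (𝓞 K) x)) < 1 := hx
  have e : m - algebraMap F K (x : F) =
      algebraMap (𝓞 K) K (y - algebraMap (𝓞 F) (𝓞 K) x) - (algebraMap (𝓞 K) K y - m) := by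
    rw [map_sub]
    have e1 : algebraMap (𝓞 K) K (algebraMap (𝓞 F) (𝓞 K) x) = algebraMap F K (x : F) := rfl
    rw [e1]
    ring
  rw [e]
  exact lt_of_le_of_lt (Valuation.map_sub _ _ _) (max_lt hx' hy1)

theorem not_sq_of {v : HeightOneSpectrum (𝓞 F)} {w : HeightOneSpectrum (𝓞 K)}
    (h : ∀ x : F, w.valuation K (algebraMap F K x) = v.valuation F x) :
    ¬ v.asIdeal.map (algebraMap (𝓞 F) (𝓞 K)) ≤ w.asIdeal ^ 2 := by
  intro hle
  obtain ⟨π, hπ⟩ := v.intValuation_exists_uniformizer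
  have hπv : π ∈ v.asIdeal := by
    have h1 := (v.intValuation_le_pow_iff_mem π 1).1 (by rw [hπ]; norm_num)
    rwa [pow_one] at h1
  have h2 := hle (Ideal.mem_map_of_mem _ hπv)
  have h3 := (w.intValuation_le_pow_iff_mem _ 2).2 h2
  have h4 : w.intValuation (algebraMap (𝓞 F) (𝓞 K) π) = exp (-1 : ℤ) := by
    rw [← HeightOneSpectrum.valuation_of_algebraMap (K := K)]
    have h5 := h (algebraMap (𝓞 F) F π)
    rw [HeightOneSpectrum.valuation_of_algebraMap, hπ] at h5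
    exact h5
  rw [h4, exp_le_exp] at h3
  norm_num at h3

theorem spI_of_sp {v : HeightOneSpectrum (𝓞 F)} (h : Sp v K) : SpI K v := by
  intro w hw
  have hab : Ab v w := ab_of_ov fun a ha => hw (Ideal.mem_map_of_mem _ ha)
  obtain ⟨h1, h2⟩ := h w hab
  refine ⟨not_sq_of h1, fun y => ?_⟩
  obtain ⟨c, hc⟩ := h2 (algebraMap (𝓞 K) K y) (HeightOneSpectrum.valuation_le_one _ _)
  have hc1 : v.valuation F c ≤ 1 := by
    rw [← h1]
    have e : algebraMap F K c = algebraMap (𝓞 K) K y - (algebraMap (𝓞 K) K y -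
      algebraMap F K c) := by ring
    rw [e]
    exact (Valuation.map_sub _ _ _).trans
      (max_le (HeightOneSpectrum.valuation_le_one _ _) hc.le)
  obtain ⟨x, hx⟩ := v.exists_valuation_sub_lt_of_integer (K := F) hc1 1
  have hx1 : v.valuation F (algebraMap (𝓞 F) F x - c) < 1 := by exact_mod_cast hx
  refine ⟨x, ?_⟩
  rw [← HeightOneSpectrum.valuation_lt_one_iff_mem (K := K)]
  change w.valuation K (algebraMap (𝓞 K) K (y - algebraMap (𝓞 F) (𝓞 K) x)) < 1
  have e : algebraMap (𝓞 K) K (y - algebraMap (𝓞 F) (𝓞 K) x) =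
      (algebraMap (𝓞 K) K y - algebraMap F K c) - algebraMap F K (algebraMap (𝓞 F) F x - c) := by
    rw [map_sub, map_sub, ← IsScalarTower.algebraMap_apply (𝓞 F) (𝓞 K) K,
      ← IsScalarTower.algebraMap_apply (𝓞 F) F K]
    ring
  rw [e]
  refine lt_of_le_of_lt (Valuation.map_sub _ _ _) (max_lt hc ?_)
  rw [h1]
  exact hx1

theorem un_of_not {v : HeightOneSpectrum (𝓞 F)}
    (h : ¬ ∃ w : HeightOneSpectrum (𝓞 K),
      v.asIdeal.map (algebraMap (𝓞 F) (𝓞 K)) ≤ w.asIdeal ^ 2) : Un v K := by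
  intro w hw
  have h1 : v.asIdeal.map (algebraMap (𝓞 F) (𝓞 K)) ≤ w.asIdeal :=
    Ideal.map_le_iff_le_comap.2 fun a ha => ov_of_ab hw a ha
  exact fun x => un_of h1 (fun h2 => h ⟨w, h2⟩) x

end

end Run7.h23.Gn
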