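import Pool.Agent.Run7.h23.Gn.Main2
import Pool.Agent.Run7.h23.Lo.Jac
import Pool.Agent.N783.PF.Jac

/-!
# The group `J(K)` is zero
-/

set_option autoImplicit false
set_option linter.all false

open Polynomial IsDedekindDomain NumberField
open scoped Classical

namespace Run7.h23.Gn

open Pool.Agent.Y160.SE Run7.h23.Lo

theorem good_of {K : Type} [Field K] [CharZero K] {F : K[X]} (hm : F.Monic) (hi : Irreducible F)
    (ho : Odd F.natDegree) : Good 2 (-1 : K) F where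
  prime := Nat.prime_two
  root := IsPrimitiveRoot.neg_one 0 (by norm_num)
  monic := hm
  sep := hi.separable
  cop := (Nat.coprime_two_left).2 ho

/-- All ideal classes are trivial. -/
theorem cls_zero {F K : Type} [Field F] [NumberField F] [Field K] [NumberField K] [Algebra F K]
    {g : ℕ} {f : (𝓞 F)[X]} (hm : f.Monic) (hd : f.natDegree = 2 * g + 1)
    (hR : ∀ v : HeightOneSpectrum (𝓞 F), (2 : 𝓞 F) ∈ v.asIdeal → RegAt v g f)
    (hun : ∀ v : HeightOneSpectrum (𝓞 F), (2 : 𝓞 F) ∈ v.asIdeal →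
      ∀ w : HeightOneSpectrum (𝓞 K), v.asIdeal.map (algebraMap (𝓞 F) (𝓞 K)) ≤ w.asIdeal →
        ¬ v.asIdeal.map (algebraMap (𝓞 F) (𝓞 K)) ≤ w.asIdeal ^ 2)
    {P : K[X]} (hP : (f.map (algebraMap (𝓞 F) (𝓞 K))).map (algebraMap (𝓞 K) K) = P)
    (hi : Irreducible P) (hdiv : Pool.Agent.N874.Jac.UniquelyTwoDivisible P)
    (I : Ideal (CR 2 P)) (hI : I ≠ ⊥) : Eqv I ⊤ := by
  have hPm : P.Monic := by rw [← hP]; exact (hm.map _).map _
  have hPd : P.natDegree = 2 * g + 1 := by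
    rw [← hP, (hm.map _).natDegree_map, hm.natDegree_map, hd]
  have hG : Good 2 (-1 : K) P := good_of hPm hi (by rw [hPd]; exact odd_two_mul_add_one g)
  -- a prime over `2`
  have h2 : Ideal.span {(2 : 𝓞 K)} ≠ ⊤ := by
    rw [Ne, Ideal.span_singleton_eq_top]
    intro hu
    have h3 := NumberField.isUnit_iff_norm.1 hu
    rw [RingOfIntegers.coe_norm] at h3
    have h4 : ((2 : 𝓞 K) : K) = algebraMap ℚ K 2 := by
      rw [map_ofNat]; rfl
    rw [h4, Algebra.norm_algebraMap] at h3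
    have h6 : 0 < Module.finrank ℚ K := Module.finrank_pos
    rw [abs_of_pos (by positivity)] at h3
    have h7 : (1 : ℚ) < 2 ^ Module.finrank ℚ K := one_lt_pow₀ (by norm_num) h6.ne'
    linarith
  obtain ⟨M, hM, hle⟩ := Ideal.exists_le_maximal _ h2
  have h2M : (2 : 𝓞 K) ∈ M := hle (Ideal.mem_span_singleton_self _)
  have hM0 : M ≠ ⊥ := by
    rintro rfl
    rw [Ideal.mem_bot] at h2M
    exact two_ne_zero h2M
  set w : HeightOneSpectrum (𝓞 K) := ⟨M, hM.isPrime, hM0⟩ with hw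
  have h2w : (2 : 𝓞 K) ∈ w.asIdeal := h2M
  haveI := w.isPrime
  have hvp : (w.asIdeal.comap (algebraMap (𝓞 F) (𝓞 K))).IsPrime := Ideal.comap_isPrime _ _
  have h2v : (2 : 𝓞 F) ∈ w.asIdeal.comap (algebraMap (𝓞 F) (𝓞 K)) := by
    rw [Ideal.mem_comap, map_ofNat]; exact h2w
  have hv0 : w.asIdeal.comap (algebraMap (𝓞 F) (𝓞 K)) ≠ ⊥ := by
    intro h
    rw [h, Ideal.mem_bot] at h2v
    exact two_ne_zero h2v
  set v : HeightOneSpectrum (𝓞 F) := ⟨_, hvp, hv0⟩ with hv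
  have hvw : v.asIdeal.map (algebraMap (𝓞 F) (𝓞 K)) ≤ w.asIdeal := Ideal.map_comap_le
  have h3 := reg_over hvw (hun v h2v w hvw) (hR v h2v)
  haveI : Finite (𝓞 K ⧸ w.asIdeal) := Ideal.finiteQuotientOfFreeOfNeBot w.asIdeal w.ne_bot
  exact app w h2w (hm.map _) (by rw [hm.natDegree_map, hd]) h3 hP hG (div_ideal hG hdiv) hI

end Run7.h23.Gn
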