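import Pool.Agent.Run7.h23.Gn.Cnd
import Pool.Agent.Run7.h23.Cn
import Pool.Agent.N710.PF.Exs

/-!
# Existence of the auxiliary primes, completely split in a given extension
-/

set_option autoImplicit false
set_option linter.all false

open Polynomial IsDedekindDomain WithZero NumberField
open scoped Classical IntermediateField

namespace Run7.h23.Gn

open Pool.Agent.N783.PF (GoodS Cg rd)

/-- Primes which split completely in a Galois extension of the rational numbers. -/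
theorem spl_primes (K' : Type) [Field K'] [NumberField K'] [IsGalois ℚ K'] (N m : ℕ) :
    ∃ S : Finset ℕ, S.card = m ∧ ∀ q ∈ S, q.Prime ∧ N < q ∧ q % 8 = 1 ∧
      ∀ w : HeightOneSpectrum (𝓞 K'), w.valuation K' (q : K') < 1 →
        w.valuation K' (q : K') = exp (-1 : ℤ) ∧
          ∀ y : 𝓞 K', ∃ z : ℤ, y - (z : 𝓞 K') ∈ w.asIdeal := by
  obtain ⟨γ, g, δ, hG, hdeg⟩ := Pool.Agent.N40.PQ.gen K'
  obtain ⟨T₁, hT₁, hδ₁⟩ : ∃ T : Finset ℤ, (∀ P ∈ T, Pool.Agent.N922.PQ.IsPr P) ∧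
      ∀ P : ℤ, Pool.Agent.N922.PQ.IsPr P → P ∣ δ → P ∈ T := by
    have hf : {P : ℤ | Pool.Agent.N922.PQ.IsPr P ∧ P ∣ δ}.Finite := by
      refine (Set.finite_Icc (-|δ|) |δ|).subset ?_
      rintro P ⟨-, h⟩
      have h3 : |P| ≤ |δ| := Int.le_of_dvd (abs_pos.2 hG.ne) ((abs_dvd_abs P δ).2 h)
      exact abs_le.1 h3
    refine ⟨hf.toFinset, fun P hP => ?_, fun P h1 h2 => ?_⟩
    · exact (hf.mem_toFinset.1 hP).1
    · exact hf.mem_toFinset.2 ⟨h1, h2⟩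
  obtain ⟨S, s, hS, hcard, hdis, hsp⟩ :=
    Pool.Agent.N40.PQ.spl K' γ g δ hG hdeg (Finset.Icc 0 (N : ℤ) ∪ T₁) m
  have hpos : ∀ Q ∈ S, ((Q.toNat : ℕ) : ℤ) = Q := fun Q hQ => Int.toNat_of_nonneg (hS Q hQ).1.1.le
  refine ⟨S.image Int.toNat, ?_, ?_⟩
  · rw [Finset.card_image_of_injOn, hcard]
    intro a ha b hb hab
    rw [← hpos a ha, ← hpos b hb]
    exact congrArg (fun n : ℕ => (n : ℤ)) hab
  · intro q hq
    obtain ⟨Q, hQ, rfl⟩ := Finset.mem_image.1 hq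
    have h1 := hpos Q hQ
    obtain ⟨hQp, hQ8, -⟩ := hS Q hQ
    have hp : Q.toNat.Prime := Nat.prime_iff_prime_int.2 (by rw [h1]; exact hQp.2)
    have hN : (N : ℤ) < Q := by
      by_contra hcon
      exact Finset.disjoint_left.1 hdis hQ (Finset.mem_union_left _
        (Finset.mem_Icc.2 ⟨hQp.1.le, not_lt.1 hcon⟩))
    refine ⟨hp, by omega, by omega, fun w hw => ?_⟩
    have e1 : ((Q.toNat : ℕ) : K') = ((Q : ℤ) : K') := by
      conv_rhs => rw [← h1]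
      rw [Int.cast_natCast]
    rw [e1] at hw ⊢
    have hw' : Pool.Agent.N922.PQ.Ov Q w := (Pool.Agent.N922.PQ.ov_val Q w).2 hw
    refine split_int hG hQp.2 (hsp Q hQ) w hw' fun hδ => ?_
    obtain ⟨P, hP, hP'⟩ := Pool.Agent.N922.PQ.ov_delta hδ₁ hδ
    have := Pool.Agent.N922.PQ.below_unique hQp (hT₁ P hP) hw' hP'
    exact Finset.disjoint_left.1 hdis hQ (Finset.mem_union_right _ (this ▸ hP))

/-- Splitting in intermediate extensions. -/
theorem sp_of {F K₀ K' : Type} [Field F] [NumberField F] [Field K₀] [NumberField K₀]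
    [Algebra F K₀] [Field K'] [NumberField K'] [Algebra K₀ K'] {q : ℕ}
    (h : ∀ w : HeightOneSpectrum (𝓞 K'), w.valuation K' (q : K') < 1 →
        w.valuation K' (q : K') = exp (-1 : ℤ) ∧
          ∀ y : 𝓞 K', ∃ z : ℤ, y - (z : 𝓞 K') ∈ w.asIdeal)
    (v : HeightOneSpectrum (𝓞 F)) (hv : (q : 𝓞 F) ∈ v.asIdeal) : Sp v K₀ := by
  intro w hvw
  obtain ⟨w', e', he'⟩ := over_e (𝓞 K₀) (𝓞 K') (F := K₀) (F' := K') w
  have hww : Ab w w' := by
    obtain ⟨𝔭, h𝔭⟩ := exists_ab (F := K₀) w'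
    obtain ⟨π, hπ⟩ := 𝔭.valuation_exists_uniformizer K₀
    have h3 : w'.valuation K' (algebraMap K₀ K' π) < 1 := by
      apply h𝔭
      rw [hπ, ← exp_zero, exp_lt_exp]
      norm_num
    have he0 : e' ≠ 0 := by
      rintro rfl
      rw [he', pow_zero] at h3
      exact lt_irrefl _ h3
    intro x hx
    rw [he']
    exact pow_lt_one' hx he0
  have hvq : v.valuation F (q : F) < 1 := (nat_mem v q).1 hv
  have hwq : w.valuation K₀ (q : K₀) < 1 := by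
    have := hvw _ hvq
    rwa [map_natCast] at this
  have hwq' : w'.valuation K' (q : K') < 1 := by
    have := hww _ hwq
    rwa [map_natCast] at this
  obtain ⟨h1, h2⟩ := h w' hwq'
  obtain ⟨e₁, -, he₁⟩ := ab_e (ov_of_ab hww)
  obtain ⟨e₂, -, he₂⟩ := ab_e (ov_of_ab hvw)
  have h3 := he₁ (q : K₀)
  rw [map_natCast, h1] at h3
  have h4 := exp_pow' h3.symm
  rw [h4, pow_one] at h3
  have h5 := he₂ (q : F)
  rw [map_natCast, ← h3] at h5
  have h6 := exp_pow' h5.symm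
  refine ⟨fun x => by rw [he₂, h6, pow_one], fun m hm => ?_⟩
  obtain ⟨y, hy⟩ := w.exists_valuation_sub_lt_of_integer (K := K₀) hm 1
  have hy1 : w.valuation K₀ (algebraMap (𝓞 K₀) K₀ y - m) < 1 := by exact_mod_cast hy
  obtain ⟨z, hz⟩ := h2 (algebraMap (𝓞 K₀) (𝓞 K') y)
  refine ⟨(z : F), ?_⟩
  rw [← val_lt_iff hww, map_sub, map_intCast, map_intCast]
  have e : algebraMap K₀ K' m - (z : K') =
      algebraMap (𝓞 K') K' (algebraMap (𝓞 K₀) (𝓞 K') y - (z : 𝓞 K')) -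
        algebraMap K₀ K' (algebraMap (𝓞 K₀) K₀ y - m) := by
    rw [map_sub, map_sub, map_intCast, ← IsScalarTower.algebraMap_apply (𝓞 K₀) (𝓞 K') K',
      ← IsScalarTower.algebraMap_apply (𝓞 K₀) K₀ K']
    ring
  rw [e]
  refine lt_of_le_of_lt (Valuation.map_sub _ _ _) (max_lt ?_ (hww _ hy1))
  rw [← HeightOneSpectrum.valuation_lt_one_iff_mem (K := K')] at hz
  exact hz

/-- The auxiliary primes. -/
theorem exsI (F : Type) [Field F] [NumberField F] (K₀ : Type) [Field K₀] [NumberField K₀]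
    [Algebra F K₀] (g W : ℕ) (hg : 1 ≤ g) (m : ℕ) :
    ∃ (S : Finset ℕ) (𝔮 : ℕ → Ideal (𝓞 F)) (h P : ℕ → (𝓞 F)[X]),
      GoodS g W S 𝔮 h P ∧ S.card = m ∧
      ∀ q ∈ S, ∀ v : HeightOneSpectrum (𝓞 F), v.asIdeal = 𝔮 q → Sp v K₀ := by
  -- the normal closure
  obtain ⟨K', iF, iN, iA, iG⟩ : ∃ (K' : Type) (_ : Field K') (_ : NumberField K')
      (_ : Algebra K₀ K'), IsGalois ℚ K' := by
    haveI : Algebra.IsAlgebraic ℚ (AlgebraicClosure K₀) :=
      Algebra.IsAlgebraic.trans ℚ K₀ (AlgebraicClosure K₀)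
    haveI : Normal ℚ (AlgebraicClosure K₀) := by
      refine normal_iff.2 fun x => ⟨Algebra.IsIntegral.isIntegral x, IsAlgClosed.splits _⟩
    haveI : NumberField (IntermediateField.normalClosure ℚ K₀ (AlgebraicClosure K₀)) :=
      { to_charZero := inferInstance
        to_finiteDimensional := inferInstance }
    have hn : Normal ℚ (IntermediateField.normalClosure ℚ K₀ (AlgebraicClosure K₀)) := by
      have h1 := _root_.normalClosure.normal (F := ℚ) (K := K₀)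
        (L := AlgebraicClosure K₀)
      convert h1
      exact Subsingleton.elim _ _
    exact ⟨IntermediateField.normalClosure ℚ K₀ (AlgebraicClosure K₀), inferInstance,
      inferInstance, inferInstance, ⟨⟩⟩
  obtain ⟨S, hcard, hS⟩ := spl_primes K' (W + (2 * g + 1) + (discr F).natAbs) m
  have hdata : ∀ q : ℕ, ∃ (𝔮 : Ideal (𝓞 F)) (h A : (𝓞 F)[X]), q ∈ S →
    (∀ 𝔭 : Ideal (𝓞 F), 𝔭.IsPrime → (q : 𝓞 F) ∉ 𝔭 ^ 2) ∧
    𝔮.IsPrime ∧ (q : 𝓞 F) ∈ 𝔮 ∧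
    h.Monic ∧ h.natDegree = 2 * g ∧ Irreducible (rd 𝔮 h) ∧
    A.Monic ∧ A.natDegree = 2 * g + 1 ∧ A.coeff (2 * g) = 0 ∧
    Cg 𝔮 A (X * h) ∧
    ∀ 𝔭 : Ideal (𝓞 F), 𝔭.IsPrime → (q : 𝓞 F) ∈ 𝔭 → 𝔭 ≠ 𝔮 → Irreducible (rd 𝔭 A) := by
    intro q
    by_cases hq : q ∈ S
    · obtain ⟨h1, h2, h3, h4⟩ := hS q hq
      obtain ⟨𝔮, h, A, hh⟩ :=
        Pool.Agent.N710.PF.exists_data F g q hg h1 (by omega) (by omega)
      exact ⟨𝔮, h, A, fun _ => hh⟩
    · exact ⟨⊥, 0, 0, fun h => absurd h hq⟩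
  choose 𝔮 h A hh using hdata
  have hgS : GoodS g W S 𝔮 h A := by
    intro q hq
    obtain ⟨h1, h2, h3, h4⟩ := hS q hq
    exact ⟨h1, by omega, by omega, h3, hh q hq⟩
  refine ⟨S, 𝔮, h, A, hgS, hcard, fun q hq v hv => ?_⟩
  exact sp_of (K' := K') (hS q hq).2.2.2 v (by rw [hv]; exact (hh q hq).2.2.1)

end Run7.h23.Gn
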