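import Mathlib

/-!
# Irreducible polynomials of odd degree with trace zero over finite fields
-/

set_option autoImplicit false
set_option linter.all false

open Polynomial
open scoped Classical IntermediateField

namespace Run7.h23.Gn

/-- The elements of degree `d`. -/
theorem pow_of_deg {k E : Type} [Field k] [Finite k] [Field E] [Finite E] [Algebra k E] (α : E) :
    α ^ (Nat.card k ^ (minpoly k α).natDegree) = α := by
  haveI : FiniteDimensional k E := Module.Finite.of_finite
  have hint : IsIntegral k α := Algebra.IsIntegral.isIntegral α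
  haveI : Finite k⟮α⟯ := Module.finite_of_finite k
  letI : Fintype k⟮α⟯ := Fintype.ofFinite _
  have h1 : Nat.card k⟮α⟯ = Nat.card k ^ (minpoly k α).natDegree := by
    rw [← IntermediateField.adjoin.finrank hint]
    exact Module.natCard_eq_pow_finrank (K := k) (V := k⟮α⟯)
  have h2 := FiniteField.pow_card (IntermediateField.AdjoinSimple.gen k α)
  rw [← Nat.card_eq_fintype_card, h1] at h2
  have h3 := congrArg (algebraMap k⟮α⟯ E) h2
  rw [map_pow, IntermediateField.AdjoinSimple.algebraMap_gen] at h3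
  exact h3

theorem irr_aux {k E : Type} [Field k] [Finite k] [Field E] [Finite E] [Algebra k E] (g : ℕ)
    (hg : 1 ≤ g) (hfr : Module.finrank k E = 2 * g + 1) :
    ∃ f : k[X], f.Monic ∧ f.natDegree = 2 * g + 1 ∧ f.coeff (2 * g) = 0 ∧ Irreducible f := by
  haveI : FiniteDimensional k E := Module.Finite.of_finite
  haveI := Fintype.ofFinite E
  obtain ⟨Q, hQ⟩ : ∃ Q, Q = Nat.card k := ⟨_, rfl⟩
  have hQ2 : 2 ≤ Q := by
    rw [hQ]
    exact Finite.one_lt_card
  -- the kernel of the trace
  obtain ⟨K, hK⟩ : ∃ K : Submodule k E, K = LinearMap.ker (Algebra.trace k E) := ⟨_, rfl⟩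
  have hKc : Nat.card K = Q ^ (2 * g) := by
    have h1 := LinearMap.finrank_range_add_finrank_ker (Algebra.trace k E)
    have h2 : Module.finrank k (LinearMap.range (Algebra.trace k E)) = 1 := by
      rw [LinearMap.range_eq_top.2 (Algebra.trace_surjective k E), finrank_top,
        Module.finrank_self]
    rw [h2, hfr, ← hK] at h1
    have h3 : Module.finrank k K = 2 * g := by omega
    rw [Module.natCard_eq_pow_finrank (K := k) (V := K), h3, hQ]
  -- the elements of smaller degree
  obtain ⟨Bad, hBad⟩ : ∃ Bad : Finset E, Bad = (Finset.Icc 1 (2 * g - 1)).biUnion fun d =>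
    (X ^ (Q ^ d) - X : E[X]).roots.toFinset := ⟨_, rfl⟩
  have hcard : Bad.card < Q ^ (2 * g) := by
    rw [hBad]
    refine lt_of_le_of_lt Finset.card_biUnion_le ?_
    refine lt_of_le_of_lt (Finset.sum_le_sum (g := fun d => Q ^ d) fun d hd => ?_) ?_
    · have hd1 := (Finset.mem_Icc.1 hd).1
      refine (Multiset.toFinset_card_le _).trans ((card_roots' _).trans ?_)
      rw [FiniteField.X_pow_card_sub_X_natDegree_eq E (Nat.one_lt_pow (by omega) (by omega))]
    · refine Nat.geomSum_lt hQ2 fun d hd => ?_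
      have := (Finset.mem_Icc.1 hd).2
      omega
  obtain ⟨α, hαK, hαB⟩ : ∃ α : E, α ∈ K ∧ α ∉ Bad := by
    by_contra hcon
    push Not at hcon
    have h1 : (K : Set E) ⊆ (Bad : Set E) := fun x hx => hcon x hx
    have h2 := Set.ncard_le_ncard h1 (Finset.finite_toSet Bad)
    rw [Set.ncard_coe_finset] at h2
    have h3 : (K : Set E).ncard = Nat.card K := rfl
    rw [h3, hKc] at h2
    omega
  have hint : IsIntegral k α := Algebra.IsIntegral.isIntegral α
  have hdeg : (minpoly k α).natDegree = 2 * g + 1 := by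
    have h1 : (minpoly k α).natDegree ∣ 2 * g + 1 := by
      rw [← hfr]
      exact minpoly.degree_dvd hint
    by_contra hne
    apply hαB
    have h2 : 1 ≤ (minpoly k α).natDegree := (minpoly.natDegree_pos hint)
    have h3 : (minpoly k α).natDegree ≤ 2 * g - 1 := by
      obtain ⟨c, hc⟩ := h1
      have hc2 : c ≠ 1 := by
        rintro rfl
        rw [mul_one] at hc
        exact hne hc.symm
      have hc0 : c ≠ 0 := by
        rintro rfl
        omega
      obtain ⟨m, hm⟩ : ∃ m, m = (minpoly k α).natDegree := ⟨_, rfl⟩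
      rw [← hm] at hc h2 hne ⊢
      have hc3 : 2 ≤ c := by omega
      have h4 : m * 2 ≤ m * c := Nat.mul_le_mul_left m hc3
      omega
    rw [hBad, Finset.mem_biUnion]
    refine ⟨_, Finset.mem_Icc.2 ⟨h2, h3⟩, ?_⟩
    rw [Multiset.mem_toFinset, mem_roots (FiniteField.X_pow_card_sub_X_ne_zero E
      (Nat.one_lt_pow (by omega) (by omega))), IsRoot.def, eval_sub, eval_pow, eval_X, hQ,
      pow_of_deg, sub_self]
  refine ⟨minpoly k α, minpoly.monic hint, hdeg, ?_, minpoly.irreducible hint⟩
  have h1 := trace_eq_finrank_mul_minpoly_nextCoeff k α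
  have h2 : Module.finrank k⟮α⟯ E = 1 := by
    have h3 := Module.finrank_mul_finrank k k⟮α⟯ E
    rw [IntermediateField.adjoin.finrank hint, hdeg, hfr] at h3
    exact Nat.eq_of_mul_eq_mul_left (by omega : 0 < 2 * g + 1) (by rw [h3, mul_one])
  have h3 : Algebra.trace k E α = 0 := by
    rw [hK] at hαK
    exact hαK
  rw [h2, h3, Nat.cast_one, one_mul, nextCoeff_of_natDegree_pos (by rw [hdeg]; omega), hdeg] at h1
  have h4 : (minpoly k α).coeff (2 * g + 1 - 1) = 0 := neg_eq_zero.1 h1.symm
  exact h4

theorem irr_tr0 (k : Type) [Field k] [Finite k] (g : ℕ) (hg : 1 ≤ g) :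
    ∃ f : k[X], f.Monic ∧ f.natDegree = 2 * g + 1 ∧ f.coeff (2 * g) = 0 ∧ Irreducible f := by
  obtain ⟨p, hp⟩ := CharP.exists k
  have hpp : p.Prime := (CharP.char_is_prime_or_zero k p).resolve_right (by
    rintro rfl
    exact (CharP.char_ne_zero_of_finite k 0) rfl)
  haveI : Fact p.Prime := ⟨hpp⟩
  haveI : NeZero (2 * g + 1) := ⟨by omega⟩
  exact irr_aux (E := FiniteField.Extension k p (2 * g + 1)) g hg
    (FiniteField.finrank_extension k p (2 * g + 1))

end Run7.h23.Gn
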