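import Pool.Agent.Run7.h23.Lo.App
import Pool.Agent.Run7.h23.Gn.Irr

/-!
# The condition at the primes over `2`: existence, congruences, extensions
-/

set_option autoImplicit false
set_option linter.all false

open Polynomial NumberField IsDedekindDomain
open scoped Classical

namespace Run7.h23.Gn

open Run7.h23.Lo

section ded

variable {R : Type} [CommRing R] [IsDedekindDomain R]

/-- `v = (π) + v ^ 2`. -/
theorem sup_unif {v : HeightOneSpectrum R} {π : R} (h1 : π ∈ v.asIdeal) (h2 : π ∉ v.asIdeal ^ 2) :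
    v.asIdeal ≤ Ideal.span {π} ⊔ v.asIdeal ^ 2 := by
  set I := Ideal.span {π} ⊔ v.asIdeal ^ 2 with hI
  have hle : I ≤ v.asIdeal :=
    sup_le ((Ideal.span_singleton_le_iff_mem _).2 h1) (Ideal.pow_le_self two_ne_zero)
  have hdvd : I ∣ v.asIdeal ^ 2 := Ideal.dvd_iff_le.2 le_sup_right
  obtain ⟨i, hi, ha⟩ := (dvd_prime_pow v.prime 2).1 hdvd
  rw [associated_iff_eq] at ha
  have hi2 : i = 0 ∨ i = 1 ∨ i = 2 := by omega
  rcases hi2 with rfl | rfl | rfl
  · rw [pow_zero, Ideal.one_eq_top] at ha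
    rw [ha] at hle
    exact absurd (top_le_iff.1 hle) v.isPrime.ne_top
  · rw [pow_one] at ha
    exact ha.ge
  · exfalso
    apply h2
    rw [← ha]
    exact Ideal.mem_sup_left (Ideal.mem_span_singleton_self π)

theorem reg_congr {v : HeightOneSpectrum R} {g : ℕ} {f f' : R[X]} (h : RegAt v g f)
    (hc : ∀ j, f'.coeff j - f.coeff j ∈ v.asIdeal ^ 2) : RegAt v g f' := by
  obtain ⟨π, A, B, E, h1, h2, h3, h4, h5, h6, h7, h8⟩ := h
  refine ⟨π, A, B, E, h1, h2, h3, h4, h5, h6, fun j => ?_, h8⟩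
  have e : (f' - (A ^ 2 + X * B ^ 2 + C π * E)).coeff j = (f'.coeff j - f.coeff j) +
      (f - (A ^ 2 + X * B ^ 2 + C π * E)).coeff j := by
    rw [coeff_sub, coeff_sub]; ring
  rw [e]
  exact Ideal.add_mem _ (hc j) (h7 j)

theorem reg_scale {v : HeightOneSpectrum R} {g : ℕ} {f : R[X]} (h : RegAt v g f) {D : R}
    (hD : D - 1 ∈ v.asIdeal ^ 2) : RegAt v g (f.scaleRoots D) := by
  refine reg_congr h fun j => ?_
  rw [coeff_scaleRoots]
  have h1 : D - 1 ∣ D ^ (f.natDegree - j) - 1 := by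
    have := sub_dvd_pow_sub_pow D 1 (f.natDegree - j)
    rwa [one_pow] at this
  obtain ⟨c, hc⟩ := h1
  have h2 : f.coeff j * D ^ (f.natDegree - j) - f.coeff j = f.coeff j * c * (D - 1) := by
    linear_combination (f.coeff j) * hc
  rw [h2]
  exact Ideal.mul_mem_left _ _ hD

theorem reg_over {S : Type} [CommRing S] [IsDedekindDomain S] [Algebra R S]
    {v : HeightOneSpectrum R} {w : HeightOneSpectrum S}
    (hw : v.asIdeal.map (algebraMap R S) ≤ w.asIdeal)
    (hw2 : ¬ v.asIdeal.map (algebraMap R S) ≤ w.asIdeal ^ 2) {g : ℕ} {f : R[X]}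
    (h : RegAt v g f) : RegAt w g (f.map (algebraMap R S)) := by
  obtain ⟨π, A, B, E, h1, h2, h3, h4, h5, h6, h7, h8⟩ := h
  have hsq : (v.asIdeal ^ 2).map (algebraMap R S) ≤ w.asIdeal ^ 2 := by
    rw [Ideal.map_pow]
    exact Ideal.pow_right_mono hw 2
  refine ⟨algebraMap R S π, A.map (algebraMap R S), B.map (algebraMap R S), E.map (algebraMap R S),
    hw (Ideal.mem_map_of_mem _ h1), ?_, natDegree_map_le.trans h3, h4.map _, ?_,
    natDegree_map_le.trans h6, fun j => ?_, ?_⟩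
  · intro h9
    apply hw2
    have h10 := Ideal.map_mono (f := algebraMap R S) (sup_unif h1 h2)
    refine h10.trans ?_
    rw [Ideal.map_sup, Ideal.map_span, Set.image_singleton, sup_le_iff]
    exact ⟨(Ideal.span_singleton_le_iff_mem _).2 h9, hsq⟩
  · rw [h4.natDegree_map, h5]
  · have e : (f.map (algebraMap R S) - (A.map (algebraMap R S) ^ 2 + X * B.map (algebraMap R S) ^ 2 +
        C (algebraMap R S π) * E.map (algebraMap R S))) =
        (f - (A ^ 2 + X * B ^ 2 + C π * E)).map (algebraMap R S) := by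
      simp only [Polynomial.map_sub, Polynomial.map_add, Polynomial.map_mul, Polynomial.map_pow,
        map_X, map_C]
    rw [e, coeff_map]
    exact hsq (Ideal.mem_map_of_mem _ (h7 j))
  · have hle : v.asIdeal ≤ w.asIdeal.comap (algebraMap R S) := Ideal.map_le_iff_le_comap.1 hw
    have h9 := h8.map (mapRingHom (Ideal.quotientMap w.asIdeal (algebraMap R S) hle))
    rw [coe_mapRingHom, Polynomial.map_mul, map_X, Polynomial.map_map, Polynomial.map_map] at h9
    have e : (Ideal.quotientMap w.asIdeal (algebraMap R S) hle).comp (Ideal.Quotient.mk v.asIdeal) =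
        (Ideal.Quotient.mk w.asIdeal).comp (algebraMap R S) := by
      ext x
      simp
    rw [e] at h9
    rw [Polynomial.map_map, Polynomial.map_map]
    exact h9

end ded

section ex

variable {F : Type} [Field F] [NumberField F]

/-- There is a polynomial with the condition at `v`. -/
theorem reg_exists (v : HeightOneSpectrum (𝓞 F)) (h2 : (2 : 𝓞 F) ∈ v.asIdeal) {g : ℕ}
    (hg : 1 ≤ g) : ∃ t : (𝓞 F)[X], t.Monic ∧ t.natDegree = 2 * g + 1 ∧
      t.coeff (2 * g) ∈ v.asIdeal ^ 2 ∧ Irreducible (t.map (Ideal.Quotient.mk v.asIdeal)) ∧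
      RegAt v g t := by
  haveI hmax : v.asIdeal.IsMaximal := v.isMaximal
  letI : Field (𝓞 F ⧸ v.asIdeal) := Ideal.Quotient.field v.asIdeal
  haveI hfin : Finite (𝓞 F ⧸ v.asIdeal) := Ideal.finiteQuotientOfFreeOfNeBot v.asIdeal v.ne_bot
  set mk := Ideal.Quotient.mk v.asIdeal with hmk
  have hsurj : Function.Surjective mk := Ideal.Quotient.mk_surjective
  have htwo : (2 : 𝓞 F ⧸ v.asIdeal) = 0 := by
    have h3 : mk 2 = 0 := Ideal.Quotient.eq_zero_iff_mem.2 h2
    rwa [map_ofNat] at h3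
  have hsq : ∀ a : 𝓞 F ⧸ v.asIdeal, ∃ b : 𝓞 F ⧸ v.asIdeal, b ^ 2 = a := by
    intro a
    have hinj : Function.Injective (fun x : 𝓞 F ⧸ v.asIdeal => x ^ 2) := by
      intro x y hxy
      have h3 : (x - y) ^ 2 = 0 := by
        have : x ^ 2 = y ^ 2 := hxy
        linear_combination this + (y ^ 2 - x * y) * htwo
      exact sub_eq_zero.1 ((pow_eq_zero_iff two_ne_zero).1 h3)
    exact (Finite.injective_iff_surjective.1 hinj) a
  obtain ⟨f, hf1, hf2, hf3, hf4⟩ := irr_tr0 (𝓞 F ⧸ v.asIdeal) g hg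
  obtain ⟨q0, q1, hq, hq0, hq1⟩ := parity f
  obtain ⟨A', hA'⟩ := exists_sqrt htwo hsq q0
  obtain ⟨B', hB'⟩ := exists_sqrt htwo hsq q1
  rw [← hA', ← hB'] at hq
  have hA'd : A'.natDegree ≤ g := by
    have := sqrt_deg hA'
    rw [this]; omega
  -- `B'` is monic of degree `g`
  have hXB : (X * B' ^ 2).natDegree = 2 * g + 1 ∧ (X * B' ^ 2).leadingCoeff = 1 := by
    have h3 : X * B' ^ 2 = f - A' ^ 2 := by rw [hq]; ring
    have h4 : (A' ^ 2).natDegree < f.natDegree := by
      rw [natDegree_pow, hf2]; omega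
    rw [h3]
    refine ⟨by rw [natDegree_sub_eq_left_of_natDegree_lt h4, hf2], ?_⟩
    rw [leadingCoeff_sub_of_degree_lt (degree_lt_degree h4)]
    exact hf1
  have hB0 : B' ≠ 0 := by
    rintro rfl
    rw [zero_pow two_ne_zero, mul_zero, natDegree_zero] at hXB
    omega
  have hB'd : B'.natDegree = g := by
    have h3 := hXB.1
    rw [natDegree_mul X_ne_zero (pow_ne_zero 2 hB0), natDegree_X, natDegree_pow] at h3
    omega
  have hB'm : B'.Monic := by
    have h3 := hXB.2
    rw [leadingCoeff_mul, leadingCoeff_X, one_mul, leadingCoeff_pow] at h3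
    have h4 : (B'.leadingCoeff - 1) ^ 2 = 0 := by
      linear_combination h3 + (1 - B'.leadingCoeff) * htwo
    exact sub_eq_zero.1 ((pow_eq_zero_iff two_ne_zero).1 h4)
  -- lifts
  obtain ⟨A, hA, hAd⟩ : ∃ A : (𝓞 F)[X], A.map mk = A' ∧ A.degree = A'.degree :=
    mem_lifts_and_degree_eq (by
      rw [lifts_iff_coeff_lifts]
      intro n
      exact hsurj _)
  obtain ⟨B, hB, hBd, hBm⟩ : ∃ B : (𝓞 F)[X], B.map mk = B' ∧ B.degree = B'.degree ∧ B.Monic :=
    lifts_and_degree_eq_and_monic (by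
      rw [lifts_iff_coeff_lifts]
      intro n
      exact hsurj _) hB'm
  have hAn : A.natDegree ≤ g := by
    rw [natDegree_eq_of_degree_eq hAd]; exact hA'd
  have hBn : B.natDegree = g := by
    rw [natDegree_eq_of_degree_eq hBd]; exact hB'd
  obtain ⟨π, hπ1, hπ2⟩ : ∃ π, π ∈ v.asIdeal ∧ π ∉ v.asIdeal ^ 2 := by
    have h3 : ¬ v.asIdeal ≤ v.asIdeal ^ 2 := by
      have h4 := Ideal.pow_succ_lt_pow (P := v.asIdeal) v.ne_bot 1
      rw [pow_one] at h4
      exact not_le_of_gt h4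
    obtain ⟨x, hx1, hx2⟩ := Set.not_subset.1 h3
    exact ⟨x, hx1, hx2⟩
  -- the constant
  have hy : (A ^ 2 + X * B ^ 2).coeff (2 * g) ∈ v.asIdeal := by
    rw [← Ideal.Quotient.eq_zero_iff_mem, ← hmk, ← coeff_map, Polynomial.map_add,
      Polynomial.map_mul, Polynomial.map_pow, Polynomial.map_pow, map_X, hA, hB, ← hq]
    exact hf3
  obtain ⟨c, hc⟩ : ∃ c : 𝓞 F, (A ^ 2 + X * B ^ 2).coeff (2 * g) + π * c ∈ v.asIdeal ^ 2 := by
    obtain ⟨a, ha, b, hb, hab⟩ := Submodule.mem_sup.1 (sup_unif hπ1 hπ2 hy)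
    obtain ⟨c, rfl⟩ := Ideal.mem_span_singleton'.1 ha
    refine ⟨-c, ?_⟩
    have : (A ^ 2 + X * B ^ 2).coeff (2 * g) + π * -c = b := by rw [← hab]; ring
    rw [this]; exact hb
  set E : (𝓞 F)[X] := 1 + C c * (X ^ g * B) with hE
  have hXg : (X ^ g * B).natDegree = 2 * g := by
    rw [(monic_X_pow g).natDegree_mul hBm, natDegree_X_pow, hBn]; omega
  have hEd : E.natDegree ≤ 2 * g := by
    refine (natDegree_add_le _ _).trans (max_le ?_ ?_)
    · rw [natDegree_one]; exact Nat.zero_le _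
    · exact (natDegree_C_mul_le _ _).trans hXg.le
  have hEc : E.coeff (2 * g) = c := by
    have h3 : (X ^ g * B).coeff (2 * g) = 1 := by
      have := ((monic_X_pow g).mul hBm).coeff_natDegree
      rwa [hXg] at this
    rw [hE, coeff_add, coeff_C_mul, h3, coeff_one, if_neg (by omega)]; ring
  have htX : (X * B ^ 2).natDegree = 2 * g + 1 := by
    rw [monic_X.natDegree_mul (hBm.pow 2), natDegree_X, hBm.natDegree_pow, hBn]
    omega
  have hlt : (A ^ 2 + C π * E).natDegree < (X * B ^ 2).natDegree := by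
    rw [htX]
    have e1 := natDegree_add_le (A ^ 2) (C π * E)
    have e2 := natDegree_C_mul_le π E
    have e3 := natDegree_pow_le (p := A) (n := 2)
    omega
  have ht : A ^ 2 + X * B ^ 2 + C π * E = X * B ^ 2 + (A ^ 2 + C π * E) := by ring
  refine ⟨A ^ 2 + X * B ^ 2 + C π * E, ?_, ?_, ?_, ?_, ?_⟩
  · rw [ht]
    exact (monic_X.mul (hBm.pow 2)).add_of_left (degree_lt_degree hlt)
  · rw [ht, natDegree_add_eq_left_of_natDegree_lt hlt, htX]
  · rw [coeff_add, coeff_C_mul, hEc]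
    exact hc
  · have h3 : (A ^ 2 + X * B ^ 2 + C π * E).map mk = f := by
      rw [Polynomial.map_add, Polynomial.map_add, Polynomial.map_mul, Polynomial.map_mul,
        Polynomial.map_pow, Polynomial.map_pow, map_X, map_C, hA, hB,
        Ideal.Quotient.eq_zero_iff_mem.2 hπ1, C_0, zero_mul, add_zero, hq]
    rw [h3]
    exact hf4
  · refine ⟨π, A, B, E, hπ1, hπ2, hAn, hBm, hBn, hEd, fun j => ?_, ?_⟩
    · rw [sub_self, coeff_zero]; exact Ideal.zero_mem _
    · have h3 : E.map mk = 1 + C (mk c) * (X ^ g * B.map mk) := by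
        rw [hE, Polynomial.map_add, Polynomial.map_one, Polynomial.map_mul, Polynomial.map_mul,
          Polynomial.map_pow, map_X, map_C]
      obtain ⟨g', rfl⟩ : ∃ g', g = g' + 1 := ⟨g - 1, by omega⟩
      refine ⟨1, -(C (mk c) * X ^ g'), ?_⟩
      rw [h3]; ring

end ex

end Run7.h23.Gn
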