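import Pool.Agent.Run7.h23.Gn.Gf
import Pool.Agent.Run7.h23.Gn.Reg

/-!
# The conditions at the small prime ideals, with the condition modulo the squares of the primes over `2`
-/

set_option autoImplicit false
set_option linter.all false

open Polynomial NumberField IsDedekindDomain

namespace Run7.h23.Gn

open Pool.Agent.N352.PF
open Run7.h23.Lo (RegAt)

theorem gi2 (F : Type) [Field F] [NumberField F] (g M : ℕ) (hg : 1 ≤ g) :
    ∃ (W : ℕ) (f₁ : (𝓞 F)[X]), f₁.Monic ∧ f₁.natDegree = 2 * g + 1 ∧ f₁.coeff (2 * g) = 0 ∧ 0 < W ∧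
    4 ∣ W ∧ (∀ v : HeightOneSpectrum (𝓞 F), (W : 𝓞 F) ∈ v.asIdeal → Irreducible (rv v f₁)) ∧
    (∀ p : ℕ, p.Prime → p ≤ M → p ∣ W) ∧
    ∀ v : HeightOneSpectrum (𝓞 F), (2 : 𝓞 F) ∈ v.asIdeal → RegAt v g f₁ := by
  classical
  set W : ℕ := 2 * primorial (max M 2) with hW
  have hWp : ∀ p : ℕ, p.Prime → p ≤ max M 2 → p ∣ W := fun p hp h =>
    Dvd.dvd.mul_left ((hp.dvd_primorial_iff).mpr h) 2
  have hW0 : 0 < W := Nat.mul_pos two_pos (primorial_pos _)
  have h4W : 4 ∣ W := by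
    have h1 : 2 ∣ primorial (max M 2) :=
      (Nat.prime_two.dvd_primorial_iff).mpr (le_max_right _ _)
    obtain ⟨c, hc⟩ := h1
    exact ⟨c, by rw [hW, hc]; ring⟩
  -- the target polynomials
  have hex : ∀ v : HeightOneSpectrum (𝓞 F), ∃ t : (𝓞 F)[X], t.Monic ∧ t.natDegree = 2 * g + 1 ∧
      ((2 : 𝓞 F) ∈ v.asIdeal → t.coeff (2 * g) ∈ v.asIdeal ^ 2) ∧ t.coeff (2 * g) ∈ v.asIdeal ∧
      Irreducible (rv v t) ∧ ((2 : 𝓞 F) ∈ v.asIdeal → RegAt v g t) := by
    intro v
    by_cases h2 : (2 : 𝓞 F) ∈ v.asIdeal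
    · obtain ⟨t, h1, h3, h4, h5, h6⟩ := reg_exists v h2 hg
      exact ⟨t, h1, h3, fun _ => h4, Ideal.pow_le_self two_ne_zero h4, h5, fun _ => h6⟩
    · obtain ⟨f, hf1, hf2, hf3, hf4⟩ := exists_v F g hg v
      obtain ⟨t, ht, htd, htm⟩ : ∃ t : (𝓞 F)[X], t.map (Ideal.Quotient.mk v.asIdeal) = f ∧
          t.degree = f.degree ∧ t.Monic :=
        lifts_and_degree_eq_and_monic (by
          rw [lifts_iff_coeff_lifts]
          intro n
          exact Ideal.Quotient.mk_surjective _) hf1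
      refine ⟨t, htm, ?_, fun h => absurd h h2, ?_, ?_, fun h => absurd h h2⟩
      · rw [natDegree_eq_of_degree_eq htd, hf2]
      · rw [← Ideal.Quotient.eq_zero_iff_mem, ← coeff_map, ht, hf3]
      · rw [rv, ht]; exact hf4
  choose t ht1 ht2 ht3 ht4 ht5 ht6 using hex
  have hWne : Ideal.span {(W : 𝓞 F)} ≠ 0 := by
    rw [Ne, Ideal.zero_eq_bot, Ideal.span_singleton_eq_bot]
    exact_mod_cast hW0.ne'
  have hfinS := Ideal.finite_factors hWne
  set T : Finset (HeightOneSpectrum (𝓞 F)) := hfinS.toFinset with hT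
  have hmem : ∀ v : HeightOneSpectrum (𝓞 F), (W : 𝓞 F) ∈ v.asIdeal → v ∈ T := by
    intro v hv
    rw [hT, Set.Finite.mem_toFinset, Set.mem_setOf_eq, Ideal.dvd_span_singleton]
    exact hv
  have hcrt : ∀ j : ℕ, ∃ a : 𝓞 F, ∀ v ∈ T, a - (t v).coeff j ∈ v.asIdeal ^ 2 := by
    intro j
    obtain ⟨a, ha⟩ := IsDedekindDomain.exists_forall_sub_mem_ideal (s := T)
      (fun v => v.asIdeal) (fun _ => 2) (fun v _ => v.prime)
      (fun v _ w _ hvw h => hvw (HeightOneSpectrum.ext h)) (fun v => (t v).coeff j)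
    exact ⟨a, fun v hv => ha v hv⟩
  choose a ha using hcrt
  set P : (𝓞 F)[X] := ∑ i ∈ Finset.range (2 * g), C (a i) * X ^ i with hP
  have hPd : P.degree < ((2 * g : ℕ) : WithBot ℕ) := by
    rw [hP]
    refine lt_of_le_of_lt (degree_sum_le _ _) ?_
    rw [Finset.sup_lt_iff (WithBot.bot_lt_coe _)]
    intro i hi
    refine lt_of_le_of_lt (degree_C_mul_X_pow_le _ _) ?_
    exact_mod_cast Finset.mem_range.mp hi
  have hPd2 : P.degree < ((2 * g + 1 : ℕ) : WithBot ℕ) :=
    hPd.trans (by exact_mod_cast (by omega : 2 * g < 2 * g + 1))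
  have hnd : (X ^ (2 * g + 1) + P).natDegree = 2 * g + 1 := by
    rw [natDegree_add_eq_left_of_degree_lt (by rw [degree_X_pow]; exact hPd2), natDegree_X_pow]
  have hPc : ∀ j < 2 * g, P.coeff j = a j := by
    intro j hj
    rw [hP, finset_sum_coeff]
    simp only [coeff_C_mul, coeff_X_pow]
    rw [Finset.sum_eq_single j]
    · simp
    · intro b _ hb
      rw [if_neg (Ne.symm hb), mul_zero]
    · intro h; exact absurd (Finset.mem_range.2 hj) h
  have hm1 : (X ^ (2 * g + 1) + P).Monic := monic_X_pow_add hPd2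
  have hc0 : (X ^ (2 * g + 1) + P).coeff (2 * g) = 0 := by
    rw [coeff_add, coeff_X_pow, if_neg (by omega), coeff_eq_zero_of_degree_lt hPd, add_zero]
  -- the coefficients
  have hcoe : ∀ v ∈ T, ∀ j, j ≠ 2 * g →
      (X ^ (2 * g + 1) + P).coeff j - (t v).coeff j ∈ v.asIdeal ^ 2 := by
    intro v hv j hj
    rcases lt_trichotomy j (2 * g) with h | h | h
    · rw [coeff_add, coeff_X_pow, if_neg (by omega), hPc j h, zero_add]
      exact ha j v hv
    · exact absurd h hj
    · rcases eq_or_lt_of_le (Nat.succ_le_of_lt h) with h1 | h1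
      · have e1 : (X ^ (2 * g + 1) + P).coeff j = 1 := by
          rw [← h1]
          have := hm1.coeff_natDegree
          rwa [hnd] at this
        have e2 : (t v).coeff j = 1 := by
          rw [← h1]
          have := (ht1 v).coeff_natDegree
          rwa [ht2 v] at this
        rw [e1, e2, sub_self]
        exact Ideal.zero_mem _
      · rw [coeff_eq_zero_of_natDegree_lt (by rw [hnd]; omega),
          coeff_eq_zero_of_natDegree_lt (by rw [ht2 v]; omega), sub_self]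
        exact Ideal.zero_mem _
  have hmap : ∀ v ∈ T, rv v (X ^ (2 * g + 1) + P) = rv v (t v) := by
    intro v hv
    ext j
    rw [rv, rv, coeff_map, coeff_map, Ideal.Quotient.eq]
    by_cases hj : j = 2 * g
    · subst hj
      rw [hc0, zero_sub]
      exact Ideal.neg_mem_iff _ |>.2 (ht4 v)
    · exact Ideal.pow_le_self two_ne_zero (hcoe v hv j hj)
  refine ⟨W, X ^ (2 * g + 1) + P, hm1, hnd, hc0, hW0, h4W, ?_,
    fun p hp hpM => hWp p hp (hpM.trans (le_max_left _ _)), ?_⟩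
  · intro v hv
    rw [hmap v (hmem v hv)]
    exact ht5 v
  · intro v hv
    have hvT : v ∈ T := by
      apply hmem
      obtain ⟨c, hc⟩ := h4W
      have e : (W : 𝓞 F) = 2 * (2 * (c : 𝓞 F)) := by rw [hc]; push_cast; ring
      rw [e]
      exact Ideal.mul_mem_right _ _ hv
    refine Run7.h23.Gn.reg_congr (ht6 v hv) fun j => ?_
    by_cases hj : j = 2 * g
    · subst hj
      rw [hc0, zero_sub]
      exact Ideal.neg_mem_iff _ |>.2 (ht3 v hv)
    · exact hcoe v hvT j hj

end Run7.h23.Gn
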