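import Pool.Agent.Run7.h23.Gn.Sel
import Pool.Agent.Run7.h23.Gn.Exs
import Pool.Agent.Run7.h23.Gn.Fam

/-!
# A positive proportion with the property for all the extensions
-/

set_option autoImplicit false
set_option linter.all false

open Polynomial IsDedekindDomain WithZero NumberField
open scoped Classical IntermediateField

namespace Run7.h23.Gn

open Pool.Agent.N783.PF
open Pool.Agent.N352.PJ (dd)
open Pool.Agent.N99.PF (card_fib ht_card ht_scale scale_inj good_card)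

section

variable {F : Type} [Field F] [NumberField F]

/-- The property of the polynomial in the theorem. -/
def GoodP (SS T : Finset (HeightOneSpectrum (𝓞 F))) (f : (𝓞 F)[X]) : Prop :=
  ∀ (M : Type) [Field M] [NumberField M] [Algebra F M] [IsGalois F M] (n : ℕ),
    Module.finrank F M = 2 ^ n → (∀ v : HeightOneSpectrum (𝓞 F), (2 : 𝓞 F) ∈ v.asIdeal → Sp v M) →
    (∀ v ∈ SS, Sp v M) → (∀ ρ : F →+* ℝ, ∃ τ : M →+* ℝ, ∀ x : F, τ (algebraMap F M x) = ρ x) →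
    (∀ v : HeightOneSpectrum (𝓞 F), ¬ Un v M → v ∈ T ∨ Irreducible (rd v.asIdeal f)) →
    Irreducible (fF (f.map (algebraMap (𝓞 F) (𝓞 M)))) ∧
      SelZero (f.map (algebraMap (𝓞 F) (𝓞 M)))

theorem irr_unscale {k : Type} [Field k] {p : k[X]} (hm : p.Monic) (hd : 2 ≤ p.natDegree) {s : k}
    (h : Irreducible (p.scaleRoots s)) : Irreducible p := by
  by_cases hs : s = 0
  · exfalso
    subst hs
    have e : p.scaleRoots 0 = X ^ p.natDegree := by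
      ext j
      rw [coeff_scaleRoots, coeff_X_pow]
      rcases lt_trichotomy j p.natDegree with h1 | h1 | h1
      · rw [zero_pow (by omega), mul_zero, if_neg (by omega)]
      · subst h1
        rw [Nat.sub_self, pow_zero, mul_one, if_pos rfl]
        exact hm
      · rw [coeff_eq_zero_of_natDegree_lt h1, zero_mul, if_neg (by omega)]
    rw [e] at h
    obtain ⟨n, hn⟩ : ∃ n, p.natDegree = n + 2 := ⟨p.natDegree - 2, by omega⟩
    rw [hn, pow_succ] at h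
    rcases h.isUnit_or_isUnit rfl with h1 | h1
    · have := isUnit_of_mul_isUnit_left (by rwa [pow_succ] at h1 : IsUnit ((X : k[X]) ^ n * X))
      have h2 := isUnit_of_mul_isUnit_right (by rwa [pow_succ] at h1 : IsUnit ((X : k[X]) ^ n * X))
      exact not_isUnit_X h2
    · exact not_isUnit_X h1
  · have h1 := Pool.Agent.N170.PF.irr_scale (inv_ne_zero hs) h
    rw [← scaleRoots_mul, mul_inv_cancel₀ hs, scaleRoots_one] at h1
    exact h1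

theorem rd_unscale {g : ℕ} (hg : 1 ≤ g) {f : (𝓞 F)[X]} (hm : f.Monic) (hd : f.natDegree = 2 * g + 1)
    (v : HeightOneSpectrum (𝓞 F)) {D : 𝓞 F} (h : Irreducible (rd v.asIdeal (f.scaleRoots D))) :
    Irreducible (rd v.asIdeal f) := by
  haveI := v.isMaximal
  letI : Field (𝓞 F ⧸ v.asIdeal) := Ideal.Quotient.field v.asIdeal
  have hnt : Nontrivial (𝓞 F ⧸ v.asIdeal) := inferInstance
  have e : rd v.asIdeal (f.scaleRoots D) =
      (rd v.asIdeal f).scaleRoots (Ideal.Quotient.mk v.asIdeal D) := by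
    rw [rd, rd, map_scaleRoots]
    rw [hm.leadingCoeff, map_one]
    exact one_ne_zero
  rw [e] at h
  refine irr_unscale (hm.map _) ?_ h
  rw [hm.natDegree_map, hd]
  omega

/-- The main theorem. -/
theorem mainI (g : ℕ) (F : Type) [Field F] [NumberField F] (hg : 1 ≤ g)
    (T : Finset (HeightOneSpectrum (𝓞 F))) (K₀ : Type) [Field K₀] [NumberField K₀]
    [Algebra F K₀] :
    ∃ SS : Finset (HeightOneSpectrum (𝓞 F)),
      (∀ v ∈ SS, (2 : 𝓞 F) ∉ v.asIdeal ∧ v ∉ T ∧ Sp v K₀) ∧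
      ∃ c : ℝ, 0 < c ∧ ∃ B₀ : ℕ, ∀ B ≥ B₀,
        {f : (𝓞 F)[X] | Ht g B f}.Finite ∧ c * ({f : (𝓞 F)[X] | Ht g B f}.ncard : ℝ) ≤
          ({f : (𝓞 F)[X] | Ht g B f ∧ Irreducible (fF f) ∧ Min g f ∧ GoodP SS T f}.ncard : ℝ) := by
  obtain ⟨κ, htw⟩ := sel_uni g F hg
  obtain ⟨C, K, hbad⟩ := bad F g κ hg
  -- the residue characteristics of `T`
  obtain ⟨K₁, hK₁⟩ : ∃ K₁ : ℕ, ∀ v ∈ T, ∃ p : ℕ, p.Prime ∧ p ≤ K₁ ∧ (p : 𝓞 F) ∈ v.asIdeal := by
    have h1 : ∀ v : HeightOneSpectrum (𝓞 F), ∃ p : ℕ, p.Prime ∧ (p : 𝓞 F) ∈ v.asIdeal := fun v =>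
      Pool.Agent.N891.PQ.exists_below v
    choose p hp using h1
    refine ⟨T.sup p, fun v hv => ⟨p v, (hp v).1, Finset.le_sup (f := p) hv, (hp v).2⟩⟩
  obtain ⟨W, f₁, hKW, hf₁, hpW, hirrW, c, hc, hfam⟩ := famI F g hg (max K₁ (max K κ))
  have hTW : ∀ v ∈ T, (W : 𝓞 F) ∈ v.asIdeal := by
    intro v hv
    obtain ⟨p, hp, hle, hm⟩ := hK₁ v hv
    obtain ⟨k, hk⟩ := hpW p hp (hle.trans (le_max_left _ _))
    rw [hk, Nat.cast_mul]
    exact Ideal.mul_mem_right _ _ hm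
  have hKW1 : K ≤ W := ((le_max_left _ _).trans (le_max_right _ _)).trans hKW
  have hKW2 : κ ≤ W := ((le_max_right _ _).trans (le_max_right _ _)).trans hKW
  obtain ⟨-, Cp, hCp, -, hpt⟩ := Pool.Agent.N490.PF.pts F
  set D : ℕ := Module.finrank ℚ F * dd g with hD
  obtain ⟨m, hm⟩ : ∃ m : ℕ, 2 * (C * (4 * 2 ^ κ : ℝ) ^ D) / c < 2 ^ m :=
    pow_unbounded_of_one_lt _ (by norm_num)
  obtain ⟨S, 𝔮, h, P, hS, hcard, hsplK⟩ := exsI F K₀ g W hg m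
  -- the primes `𝔮 q`
  obtain ⟨SS, hSS⟩ : ∃ SS : Finset (HeightOneSpectrum (𝓞 F)),
      ∀ v, v ∈ SS ↔ ∃ q ∈ S, v.asIdeal = 𝔮 q := by
    have h1 : ∀ q ∈ S, ∃ v : HeightOneSpectrum (𝓞 F), v.asIdeal = 𝔮 q := fun q hq =>
      ⟨⟨𝔮 q, (hS q hq).2.2.2.2.2.1, q_ne hS hq⟩, rfl⟩
    haveI hne : Nonempty (HeightOneSpectrum (𝓞 F)) := by
      obtain ⟨m, hm⟩ := Ideal.exists_maximal (𝓞 F)
      exact ⟨⟨m, hm.isPrime, Ring.ne_bot_of_isMaximal_of_not_isField hm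
        (NumberField.RingOfIntegers.not_isField F)⟩⟩
    choose! u hu using h1
    refine ⟨S.image u, fun v => ?_⟩
    rw [Finset.mem_image]
    constructor
    · rintro ⟨q, hq, rfl⟩
      exact ⟨q, hq, hu q hq⟩
    · rintro ⟨q, hq, hv⟩
      refine ⟨q, hq, ?_⟩
      ext1
      rw [hu q hq, hv]
  have hcop : ∀ q ∈ S, ∀ v : HeightOneSpectrum (𝓞 F), v.asIdeal = 𝔮 q →
      ∀ n : ℕ, 0 < n → n < q → (n : 𝓞 F) ∉ v.asIdeal := by
    intro q hq v hv n hn hnq hmem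
    have hqm : (q : 𝓞 F) ∈ v.asIdeal := by
      rw [hv]
      exact nat_mem_q hS hq
    have hco : Nat.Coprime n q :=
      (Nat.coprime_comm.1 ((hS q hq).1.coprime_iff_not_dvd.2 fun hd =>
        absurd (Nat.le_of_dvd hn hd) (by omega)))
    obtain ⟨a, b, hab⟩ := (Nat.isCoprime_iff_coprime.2 hco)
    apply v.isPrime.ne_top
    rw [Ideal.eq_top_iff_one]
    have h9 : (1 : 𝓞 F) = (a : 𝓞 F) * (n : 𝓞 F) + (b : 𝓞 F) * (q : 𝓞 F) := by
      have := congrArg (Int.cast (R := 𝓞 F)) hab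
      push_cast at this
      exact this.symm
    rw [h9]
    exact Ideal.add_mem _ (Ideal.mul_mem_left _ _ hmem) (Ideal.mul_mem_left _ _ hqm)
  refine ⟨SS, fun v hv => ?_, ?_⟩
  · obtain ⟨q, hq, hvq⟩ := (hSS v).1 hv
    have hq2 := (hS q hq).2.2.1
    refine ⟨fun h2 => hcop q hq v hvq 2 two_pos (by omega) (by exact_mod_cast h2), fun hT =>
      hcop q hq v hvq W hf₁.pos (hS q hq).2.1 (hTW v hT), hsplK q hq v hvq⟩
  obtain ⟨B₁₀, hB₁₀⟩ := hfam S 𝔮 h P hS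
  obtain ⟨N₀, hN₀⟩ := hbad W S 𝔮 h P hKW1 hS
  set Q : ℕ := ∏ q ∈ S, q with hQ
  have hq1 : ∀ q ∈ S, 1 ≤ q := fun q hq => (hS q hq).1.pos
  have hQ1 : 1 ≤ Q := Finset.one_le_prod' hq1
  set Pn : ℕ := (∏ q ∈ S, q ^ (2 * g)) ^ Module.finrank ℚ F with hPn
  have hP0 : (0 : ℝ) < Pn := by
    have : 0 < Pn := pow_pos (Finset.prod_pos fun q hq => pow_pos (hq1 q hq) _) _
    exact_mod_cast this
  have hQ0 : (0 : ℝ) < Q := by exact_mod_cast hQ1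
  set X₀ : ℕ := max (max B₁₀ (4 ^ N₀)) 1 with hX₀
  refine ⟨c / 2 / (Pn * 2 ^ m * ((2 * Cp) ^ (2 * g) * (2 * Q) ^ D)), by positivity, X₀ * Q,
    fun B hB => ?_⟩
  set B₁ : ℕ := B / Q with hB₁
  have hBX : X₀ ≤ B₁ := (Nat.le_div_iff_mul_le hQ1).2 hB
  have hb1 : 1 ≤ B₁ := (le_max_right _ _).trans hBX
  have hb2 : B₁₀ ≤ B₁ := ((le_max_left _ _).trans (le_max_left _ _)).trans hBX
  have hb3 : 4 ^ N₀ ≤ B₁ := ((le_max_right _ _).trans (le_max_left _ _)).trans hBX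
  have hBQ : B₁ * Q ≤ B := Nat.div_mul_le_self B Q
  have hBQ2 : B ≤ 2 * Q * B₁ := by
    have e1 : B < B₁ * Q + Q := by
      have := Nat.lt_div_mul_add (a := B) (b := Q) hQ1
      exact this
    nlinarith
  have hB1 : 1 ≤ B := le_trans (by nlinarith) hBQ
  obtain ⟨N, hNa, hNb⟩ : ∃ N : ℕ, 2 ^ κ * B₁ ≤ 4 ^ N ∧ 4 ^ N ≤ 4 * (2 ^ κ * B₁) := by
    refine ⟨Nat.log 4 (2 ^ κ * B₁) + 1, (Nat.lt_pow_succ_log_self (by norm_num) _).le, ?_⟩
    rw [pow_succ, mul_comm]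
    refine Nat.mul_le_mul_left 4 (Nat.pow_log_le_self 4 ?_)
    positivity
  have hNN : N₀ ≤ N := by
    have e1 : 4 ^ N₀ ≤ 4 ^ N := hb3.trans (le_trans (Nat.le_mul_of_pos_left _ (by positivity)) hNa)
    exact (Nat.pow_le_pow_iff_right (by norm_num)).1 e1
  obtain ⟨hfin, hBd⟩ := hN₀ N hNN
  refine ⟨(ht_card hCp hpt g B hB1).1, ?_⟩
  set H := {f : (𝓞 F)[X] | Ht g B f ∧ Irreducible (fF f) ∧ Min g f ∧ GoodP SS T f} with hH
  set G := {f : (𝓞 F)[X] | Fam g B₁ W f₁ S P f} \ {f : (𝓞 F)[X] | LBad g N κ S 𝔮 P f} with hGdef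
  have hHf : H.Finite := (ht_card hCp hpt g B hB1).1.subset fun f hf => hf.1
  have hGf : G.Finite := (ht_card hCp hpt g B₁ hb1).1.subset fun f hf => hf.1.ht
  have hG : c / 2 * (B₁ : ℝ) ^ D ≤ Pn * (G.ncard : ℝ) := by
    refine good_card (C := C) (m := m) (κ := κ) hc hP0 B₁ N (hB₁₀ B₁ hb2) hfin ?_ hm ?_
    · rw [hcard] at hBd
      have e2 : Module.finrank ℚ F * (2 * N * dd g) = 2 * N * D := by rw [hD]; ring
      rw [e2] at hBd
      exact_mod_cast hBd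
    · exact_mod_cast hNb
  have hJ0 : ∀ J ⊆ S, ((Dp J : ℕ) : 𝓞 F) ≠ 0 := by
    intro J hJ
    have : 0 < ∏ q ∈ J, q := Finset.prod_pos fun q hq => hq1 q (hJ hq)
    have h5 : (Dp J : ℕ) ≠ 0 := this.ne'
    exact_mod_cast h5
  have hcard1 := card_fib hGf hHf S (fun J f => f.scaleRoots ((Dp J : ℕ) : 𝓞 F)) (by
      intro f hf
      obtain ⟨J, hJ, hirr, hmin, hsel⟩ := htw B₁ N W f₁ S 𝔮 h P f hKW2 hf₁ hS hf.1 hNa hb1 hf.2
      have hDle : Dp J ≤ Q :=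
        Finset.prod_le_prod_of_subset_of_one_le' hJ fun q hq _ => hq1 q hq
      refine ⟨J, hJ, ht_scale hf.1.ht ((Nat.mul_le_mul_left _ hDle).trans hBQ), hirr, hmin, ?_⟩
      intro M _ _ _ _ n hn h2 hsp hreal hram
      refine hsel M n hn ⟨h2, fun q hq v hv => hsp v ((hSS v).2 ⟨q, hq, hv⟩), hreal, ?_⟩
      intro v hv
      rcases hram v hv with hvT | hvI
      · have h3 := Pool.Agent.N78.PF.rd_eq (Pool.Agent.N78.PF.sp_le (hTW v hvT)) hf.1.one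
        rw [h3]
        exact hirrW v (hTW v hvT)
      · exact rd_unscale hg hf.1.ht.mon hf.1.ht.deg v hvI) (by
      intro J hJ x hx y hy hxy
      exact scale_inj (hJ0 J hJ) (by rw [hx.1.ht.deg, hy.1.ht.deg]) hxy)
  rw [hcard] at hcard1
  have hcard' : (G.ncard : ℝ) ≤ 2 ^ m * H.ncard := by exact_mod_cast hcard1
  have hM' : ({f : (𝓞 F)[X] | Ht g B f}.ncard : ℝ) ≤
      (2 * Cp) ^ (2 * g) * (2 * Q) ^ D * (B₁ : ℝ) ^ D := by
    have e1 : ({f : (𝓞 F)[X] | Ht g B f}.ncard : ℝ) ≤ (2 * Cp) ^ (2 * g) * (B : ℝ) ^ D :=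
      (ht_card hCp hpt g B hB1).2
    refine e1.trans ?_
    rw [mul_assoc, ← mul_pow]
    have e2 : (B : ℝ) ≤ 2 * Q * B₁ := by exact_mod_cast hBQ2
    gcongr
  calc c / 2 / (Pn * 2 ^ m * ((2 * Cp) ^ (2 * g) * (2 * Q) ^ D)) *
        ({f : (𝓞 F)[X] | Ht g B f}.ncard : ℝ)
      ≤ c / 2 / (Pn * 2 ^ m * ((2 * Cp) ^ (2 * g) * (2 * Q) ^ D)) *
        ((2 * Cp) ^ (2 * g) * (2 * Q) ^ D * (B₁ : ℝ) ^ D) :=
        mul_le_mul_of_nonneg_left hM' (by positivity)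
    _ = c / 2 * (B₁ : ℝ) ^ D / (Pn * 2 ^ m) := by
        field_simp
    _ ≤ (Pn * (G.ncard : ℝ)) / (Pn * 2 ^ m) := by gcongr
    _ ≤ (Pn * (2 ^ m * H.ncard)) / (Pn * 2 ^ m) := by gcongr
    _ = H.ncard := by field_simp

end

end Run7.h23.Gn
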