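import Pool.Agent.Run7.h23.Gn.Sel
import Pool.Agent.Run7.h23.Gn.Exs
import Pool.Agent.Run7.h23.Gn.Fam2
import Pool.Agent.Run7.h23.Gn.Main

/-!
# A positive proportion with the property for all the extensions
-/

set_option autoImplicit false
set_option linter.all false

open Polynomial IsDedekindDomain WithZero NumberField
open scoped Classical IntermediateField

namespace Run7.h23.Gn

open Pool.Agent.N783.PF
open Pool.Agent.N352.PJ (dd)
open Pool.Agent.N99.PF (card_fib ht_card ht_scale scale_inj good_card)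

section

variable {F : Type} [Field F] [NumberField F]

/-- The main theorem, with the condition at the primes over `2`. -/
theorem mainI2 (g : ℕ) (F : Type) [Field F] [NumberField F] (hg : 1 ≤ g)
    (T : Finset (HeightOneSpectrum (𝓞 F))) (K₀ : Type) [Field K₀] [NumberField K₀]
    [Algebra F K₀] :
    ∃ SS : Finset (HeightOneSpectrum (𝓞 F)),
      (∀ v ∈ SS, (2 : 𝓞 F) ∉ v.asIdeal ∧ v ∉ T ∧ Sp v K₀) ∧
      ∃ c : ℝ, 0 < c ∧ ∃ B₀ : ℕ, ∀ B ≥ B₀,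
        {f : (𝓞 F)[X] | Ht g B f}.Finite ∧ c * ({f : (𝓞 F)[X] | Ht g B f}.ncard : ℝ) ≤
          ({f : (𝓞 F)[X] | Ht g B f ∧ Irreducible (fF f) ∧ Min g f ∧ GoodP SS T f ∧
            ∀ v : HeightOneSpectrum (𝓞 F), (2 : 𝓞 F) ∈ v.asIdeal →
              Run7.h23.Lo.RegAt v g f}.ncard : ℝ) := by
  obtain ⟨κ, htw⟩ := sel_uni g F hg
  obtain ⟨C, K, hbad⟩ := bad F g κ hg
  -- the residue characteristics of `T`
  obtain ⟨K₁, hK₁⟩ : ∃ K₁ : ℕ, ∀ v ∈ T, ∃ p : ℕ, p.Prime ∧ p ≤ K₁ ∧ (p : 𝓞 F) ∈ v.asIdeal := by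
    have h1 : ∀ v : HeightOneSpectrum (𝓞 F), ∃ p : ℕ, p.Prime ∧ (p : 𝓞 F) ∈ v.asIdeal := fun v =>
      Pool.Agent.N891.PQ.exists_below v
    choose p hp using h1
    refine ⟨T.sup p, fun v hv => ⟨p v, (hp v).1, Finset.le_sup (f := p) hv, (hp v).2⟩⟩
  obtain ⟨W, f₁, hKW, hf₁, hpW, hirrW, ⟨hfour, hreg⟩, c, hc, hfam⟩ :=
    famI2 F g hg (max K₁ (max K κ))
  have hTW : ∀ v ∈ T, (W : 𝓞 F) ∈ v.asIdeal := by
    intro v hv
    obtain ⟨p, hp, hle, hm⟩ := hK₁ v hv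
    obtain ⟨k, hk⟩ := hpW p hp (hle.trans (le_max_left _ _))
    rw [hk, Nat.cast_mul]
    exact Ideal.mul_mem_right _ _ hm
  have hKW1 : K ≤ W := ((le_max_left _ _).trans (le_max_right _ _)).trans hKW
  have hKW2 : κ ≤ W := ((le_max_right _ _).trans (le_max_right _ _)).trans hKW
  obtain ⟨-, Cp, hCp, -, hpt⟩ := Pool.Agent.N490.PF.pts F
  set D : ℕ := Module.finrank ℚ F * dd g with hD
  obtain ⟨m, hm⟩ : ∃ m : ℕ, 2 * (C * (4 * 2 ^ κ : ℝ) ^ D) / c < 2 ^ m :=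
    pow_unbounded_of_one_lt _ (by norm_num)
  obtain ⟨S, 𝔮, h, P, hS, hcard, hsplK⟩ := exsI F K₀ g W hg m
  -- the primes `𝔮 q`
  obtain ⟨SS, hSS⟩ : ∃ SS : Finset (HeightOneSpectrum (𝓞 F)),
      ∀ v, v ∈ SS ↔ ∃ q ∈ S, v.asIdeal = 𝔮 q := by
    have h1 : ∀ q ∈ S, ∃ v : HeightOneSpectrum (𝓞 F), v.asIdeal = 𝔮 q := fun q hq =>
      ⟨⟨𝔮 q, (hS q hq).2.2.2.2.2.1, q_ne hS hq⟩, rfl⟩
    haveI hne : Nonempty (HeightOneSpectrum (𝓞 F)) := by
      obtain ⟨m, hm⟩ := Ideal.exists_maximal (𝓞 F)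
      exact ⟨⟨m, hm.isPrime, Ring.ne_bot_of_isMaximal_of_not_isField hm
        (NumberField.RingOfIntegers.not_isField F)⟩⟩
    choose! u hu using h1
    refine ⟨S.image u, fun v => ?_⟩
    rw [Finset.mem_image]
    constructor
    · rintro ⟨q, hq, rfl⟩
      exact ⟨q, hq, hu q hq⟩
    · rintro ⟨q, hq, hv⟩
      refine ⟨q, hq, ?_⟩
      ext1
      rw [hu q hq, hv]
  have hcop : ∀ q ∈ S, ∀ v : HeightOneSpectrum (𝓞 F), v.asIdeal = 𝔮 q →
      ∀ n : ℕ, 0 < n → n < q → (n : 𝓞 F) ∉ v.asIdeal := by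
    intro q hq v hv n hn hnq hmem
    have hqm : (q : 𝓞 F) ∈ v.asIdeal := by
      rw [hv]
      exact nat_mem_q hS hq
    have hco : Nat.Coprime n q :=
      (Nat.coprime_comm.1 ((hS q hq).1.coprime_iff_not_dvd.2 fun hd =>
        absurd (Nat.le_of_dvd hn hd) (by omega)))
    obtain ⟨a, b, hab⟩ := (Nat.isCoprime_iff_coprime.2 hco)
    apply v.isPrime.ne_top
    rw [Ideal.eq_top_iff_one]
    have h9 : (1 : 𝓞 F) = (a : 𝓞 F) * (n : 𝓞 F) + (b : 𝓞 F) * (q : 𝓞 F) := by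
      have := congrArg (Int.cast (R := 𝓞 F)) hab
      push_cast at this
      exact this.symm
    rw [h9]
    exact Ideal.add_mem _ (Ideal.mul_mem_left _ _ hmem) (Ideal.mul_mem_left _ _ hqm)
  refine ⟨SS, fun v hv => ?_, ?_⟩
  · obtain ⟨q, hq, hvq⟩ := (hSS v).1 hv
    have hq2 := (hS q hq).2.2.1
    refine ⟨fun h2 => hcop q hq v hvq 2 two_pos (by omega) (by exact_mod_cast h2), fun hT =>
      hcop q hq v hvq W hf₁.pos (hS q hq).2.1 (hTW v hT), hsplK q hq v hvq⟩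
  obtain ⟨B₁₀, hB₁₀⟩ := hfam S 𝔮 h P hS
  obtain ⟨N₀, hN₀⟩ := hbad W S 𝔮 h P hKW1 hS
  set Q : ℕ := ∏ q ∈ S, q with hQ
  have hq1 : ∀ q ∈ S, 1 ≤ q := fun q hq => (hS q hq).1.pos
  have hQ1 : 1 ≤ Q := Finset.one_le_prod' hq1
  set Pn : ℕ := (∏ q ∈ S, q ^ (2 * g)) ^ Module.finrank ℚ F with hPn
  have hP0 : (0 : ℝ) < Pn := by
    have : 0 < Pn := pow_pos (Finset.prod_pos fun q hq => pow_pos (hq1 q hq) _) _
    exact_mod_cast this
  have hQ0 : (0 : ℝ) < Q := by exact_mod_cast hQ1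
  set X₀ : ℕ := max (max B₁₀ (4 ^ N₀)) 1 with hX₀
  refine ⟨c / 2 / (Pn * 2 ^ m * ((2 * Cp) ^ (2 * g) * (2 * Q) ^ D)), by positivity, X₀ * Q,
    fun B hB => ?_⟩
  set B₁ : ℕ := B / Q with hB₁
  have hBX : X₀ ≤ B₁ := (Nat.le_div_iff_mul_le hQ1).2 hB
  have hb1 : 1 ≤ B₁ := (le_max_right _ _).trans hBX
  have hb2 : B₁₀ ≤ B₁ := ((le_max_left _ _).trans (le_max_left _ _)).trans hBX
  have hb3 : 4 ^ N₀ ≤ B₁ := ((le_max_right _ _).trans (le_max_left _ _)).trans hBX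
  have hBQ : B₁ * Q ≤ B := Nat.div_mul_le_self B Q
  have hBQ2 : B ≤ 2 * Q * B₁ := by
    have e1 : B < B₁ * Q + Q := by
      have := Nat.lt_div_mul_add (a := B) (b := Q) hQ1
      exact this
    nlinarith
  have hB1 : 1 ≤ B := le_trans (by nlinarith) hBQ
  obtain ⟨N, hNa, hNb⟩ : ∃ N : ℕ, 2 ^ κ * B₁ ≤ 4 ^ N ∧ 4 ^ N ≤ 4 * (2 ^ κ * B₁) := by
    refine ⟨Nat.log 4 (2 ^ κ * B₁) + 1, (Nat.lt_pow_succ_log_self (by norm_num) _).le, ?_⟩
    rw [pow_succ, mul_comm]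
    refine Nat.mul_le_mul_left 4 (Nat.pow_log_le_self 4 ?_)
    positivity
  have hNN : N₀ ≤ N := by
    have e1 : 4 ^ N₀ ≤ 4 ^ N := hb3.trans (le_trans (Nat.le_mul_of_pos_left _ (by positivity)) hNa)
    exact (Nat.pow_le_pow_iff_right (by norm_num)).1 e1
  obtain ⟨hfin, hBd⟩ := hN₀ N hNN
  refine ⟨(ht_card hCp hpt g B hB1).1, ?_⟩
  set H := {f : (𝓞 F)[X] | Ht g B f ∧ Irreducible (fF f) ∧ Min g f ∧ GoodP SS T f ∧
    ∀ v : HeightOneSpectrum (𝓞 F), (2 : 𝓞 F) ∈ v.asIdeal → Run7.h23.Lo.RegAt v g f} with hH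
  set G := {f : (𝓞 F)[X] | Fam g B₁ W f₁ S P f} \ {f : (𝓞 F)[X] | LBad g N κ S 𝔮 P f} with hGdef
  have hHf : H.Finite := (ht_card hCp hpt g B hB1).1.subset fun f hf => hf.1
  have hGf : G.Finite := (ht_card hCp hpt g B₁ hb1).1.subset fun f hf => hf.1.ht
  have hG : c / 2 * (B₁ : ℝ) ^ D ≤ Pn * (G.ncard : ℝ) := by
    refine good_card (C := C) (m := m) (κ := κ) hc hP0 B₁ N (hB₁₀ B₁ hb2) hfin ?_ hm ?_
    · rw [hcard] at hBd
      have e2 : Module.finrank ℚ F * (2 * N * dd g) = 2 * N * D := by rw [hD]; ring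
      rw [e2] at hBd
      exact_mod_cast hBd
    · exact_mod_cast hNb
  have hJ0 : ∀ J ⊆ S, ((Dp J : ℕ) : 𝓞 F) ≠ 0 := by
    intro J hJ
    have : 0 < ∏ q ∈ J, q := Finset.prod_pos fun q hq => hq1 q (hJ hq)
    have h5 : (Dp J : ℕ) ≠ 0 := this.ne'
    exact_mod_cast h5
  have hcard1 := card_fib hGf hHf S (fun J f => f.scaleRoots ((Dp J : ℕ) : 𝓞 F)) (by
      intro f hf
      obtain ⟨J, hJ, hirr, hmin, hsel⟩ := htw B₁ N W f₁ S 𝔮 h P f hKW2 hf₁ hS hf.1 hNa hb1 hf.2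
      have hDle : Dp J ≤ Q :=
        Finset.prod_le_prod_of_subset_of_one_le' hJ fun q hq _ => hq1 q hq
      refine ⟨J, hJ, ht_scale hf.1.ht ((Nat.mul_le_mul_left _ hDle).trans hBQ), hirr, hmin, ?_,
        fun v hv => ?_⟩
      swap
      · have h4v : (4 : 𝓞 F) ∈ v.asIdeal ^ 2 := by
          have e : (4 : 𝓞 F) = 2 ^ 2 := by norm_num
          rw [e]
          exact Ideal.pow_mem_pow hv 2
        refine reg_scale (reg_congr (hreg v hv) fun j => ?_) ?_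
        · have h5 := hf.1.one j
          rw [sp, Ideal.mem_span_singleton] at h5
          obtain ⟨a, ha⟩ := h5
          obtain ⟨b, hb⟩ := hfour
          have e : f.coeff j - f₁.coeff j = (b * a) * 4 := by
            rw [ha, hb]; push_cast; ring
          rw [e]
          exact Ideal.mul_mem_left _ _ h4v
        · have h8 : (Dp J : ℕ) % 8 = 1 := by
            have : ∀ J' ⊆ S, (∏ q ∈ J', q) % 8 = 1 := by
              intro J'
              induction J' using Finset.induction_on with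
              | empty => intro _; simp
              | insert q J' hq ih =>
                intro hsub
                rw [Finset.prod_insert hq, Nat.mul_mod,
                  ih ((Finset.subset_insert _ _).trans hsub),
                  (hS q (hsub (Finset.mem_insert_self _ _))).2.2.2.1]
            exact this J hJ
          obtain ⟨n, hn⟩ : ∃ n : ℕ, (Dp J : ℕ) = 8 * n + 1 := ⟨Dp J / 8, by omega⟩
          have e : ((Dp J : ℕ) : 𝓞 F) - 1 = (2 * n) * 4 := by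
            rw [hn]; push_cast; ring
          rw [e]
          exact Ideal.mul_mem_left _ _ h4v
      intro M _ _ _ _ n hn h2 hsp hreal hram
      refine hsel M n hn ⟨h2, fun q hq v hv => hsp v ((hSS v).2 ⟨q, hq, hv⟩), hreal, ?_⟩
      intro v hv
      rcases hram v hv with hvT | hvI
      · have h3 := Pool.Agent.N78.PF.rd_eq (Pool.Agent.N78.PF.sp_le (hTW v hvT)) hf.1.one
        rw [h3]
        exact hirrW v (hTW v hvT)
      · exact rd_unscale hg hf.1.ht.mon hf.1.ht.deg v hvI) (by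
      intro J hJ x hx y hy hxy
      exact scale_inj (hJ0 J hJ) (by rw [hx.1.ht.deg, hy.1.ht.deg]) hxy)
  rw [hcard] at hcard1
  have hcard' : (G.ncard : ℝ) ≤ 2 ^ m * H.ncard := by exact_mod_cast hcard1
  have hM' : ({f : (𝓞 F)[X] | Ht g B f}.ncard : ℝ) ≤
      (2 * Cp) ^ (2 * g) * (2 * Q) ^ D * (B₁ : ℝ) ^ D := by
    have e1 : ({f : (𝓞 F)[X] | Ht g B f}.ncard : ℝ) ≤ (2 * Cp) ^ (2 * g) * (B : ℝ) ^ D :=
      (ht_card hCp hpt g B hB1).2
    refine e1.trans ?_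
    rw [mul_assoc, ← mul_pow]
    have e2 : (B : ℝ) ≤ 2 * Q * B₁ := by exact_mod_cast hBQ2
    gcongr
  calc c / 2 / (Pn * 2 ^ m * ((2 * Cp) ^ (2 * g) * (2 * Q) ^ D)) *
        ({f : (𝓞 F)[X] | Ht g B f}.ncard : ℝ)
      ≤ c / 2 / (Pn * 2 ^ m * ((2 * Cp) ^ (2 * g) * (2 * Q) ^ D)) *
        ((2 * Cp) ^ (2 * g) * (2 * Q) ^ D * (B₁ : ℝ) ^ D) :=
        mul_le_mul_of_nonneg_left hM' (by positivity)
    _ = c / 2 * (B₁ : ℝ) ^ D / (Pn * 2 ^ m) := by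
        field_simp
    _ ≤ (Pn * (G.ncard : ℝ)) / (Pn * 2 ^ m) := by gcongr
    _ ≤ (Pn * (2 ^ m * H.ncard)) / (Pn * 2 ^ m) := by gcongr
    _ = H.ncard := by field_simp

end

end Run7.h23.Gn
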