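import Pool.Agent.Run7.h23.Gn.Base
import Pool.Agent.N874.JM.Fld

/-!
# From the local conditions over the extension to the conditions
-/

set_option autoImplicit false
set_option linter.all false

open Polynomial IsDedekindDomain WithZero NumberField
open scoped Classical IntermediateField

namespace Run7.h23.Gn

open Pool.Agent.N783.PF
open Pool.Agent.N874.PP (Ev Sq1 U0)
open Pool.Agent.N783.PQ (LocIm)
open Pool.Agent.N874.JM (LocF)

section top

variable {F L : Type} [Field F] [NumberField F] [Field L] [NumberField L] [Algebra F L]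

theorem sq_up {𝔭 : HeightOneSpectrum (𝓞 F)} {𝔓 : HeightOneSpectrum (𝓞 L)} (h : Ab 𝔭 𝔓) {x : F}
    (hx : Sq1 𝔭 x) : Sq1 𝔓 (algebraMap F L x) := by
  obtain ⟨e, he, hv⟩ := ab_e (ov_of_ab h)
  obtain ⟨s, hs⟩ := hx
  refine ⟨algebraMap F L s, ?_⟩
  rw [← map_pow, ← map_sub, hv, hv]
  exact pow_lt_pow_left₀ hs zero_le' he

variable {M Ω : Type} [Field M] [NumberField M] [Field Ω] [NumberField Ω] [Algebra F M]
  [Algebra L Ω] [Algebra M Ω] [Algebra F Ω] [IsScalarTower F L Ω] [IsScalarTower F M Ω]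

theorem isGen_up {g : ℕ} {f : (𝓞 F)[X]} {θ : L} (hG : IsGen g f θ)
    (hθ : M⟮algebraMap L Ω θ⟯ = ⊤) (hr : Module.finrank M Ω = 2 * g + 1) :
    IsGen g (f.map (algebraMap (𝓞 F) (𝓞 M))) (algebraMap L Ω θ) where
  mon := hG.mon.map _
  deg := by rw [hG.mon.natDegree_map, hG.deg]
  root := root_up hG.root
  rank := hr
  gen x := by
    haveI : FiniteDimensional M Ω := Module.Finite.of_restrictScalars_finite ℚ M Ω
    have h1 : x ∈ Algebra.adjoin M {algebraMap L Ω θ} := by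
      have h2 := IntermediateField.adjoin_simple_toSubalgebra_of_isAlgebraic
        (Algebra.IsAlgebraic.isAlgebraic (R := M) (algebraMap L Ω θ))
      rw [← h2, hθ]
      trivial
    rw [Algebra.adjoin_singleton_eq_range_aeval] at h1
    obtain ⟨p, hp⟩ := h1
    have hp' : aeval (algebraMap L Ω θ) p = x := hp
    have hm : (fM M f).Monic := (hG.mon.map _).map _
    have hd : (fM M f).natDegree = 2 * g + 1 := by
      rw [fM, fF, (hG.mon.map _).natDegree_map, hG.mon.natDegree_map, hG.deg]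
    have h3 : aeval (algebraMap L Ω θ) (p %ₘ fM M f) = x := by
      rw [← hp']
      conv_rhs => rw [← modByMonic_add_div p (fM M f)]
      rw [map_add, map_mul, root_up hG.root, zero_mul, add_zero]
    have h4 : (p %ₘ fM M f).natDegree < 2 * g + 1 := by
      rw [← hd]
      refine natDegree_modByMonic_lt _ hm ?_
      intro h0
      rw [h0, natDegree_one] at hd
      omega
    refine ⟨fun i => (p %ₘ fM M f).coeff i, ?_⟩
    rw [← h3, aeval_eq_sum_range' h4, ← Fin.sum_univ_eq_sum_range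
      (fun i => (p %ₘ fM M f).coeff i • (algebraMap L Ω θ) ^ i)]
    refine Finset.sum_congr rfl fun i _ => ?_
    rw [Algebra.smul_def]

theorem scale_map {f : (𝓞 F)[X]} (hm : f.Monic) (D : ℕ) :
    (f.scaleRoots ((D : ℕ) : 𝓞 F)).map (algebraMap (𝓞 F) (𝓞 M)) =
      (f.map (algebraMap (𝓞 F) (𝓞 M))).scaleRoots ((D : ℕ) : 𝓞 M) := by
  rw [map_scaleRoots]
  · simp
  · rw [hm.leadingCoeff]
    simp

theorem cnd_top {g W : ℕ} {f f₁ : (𝓞 F)[X]} {θ : L} {S J : Finset ℕ}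
    {𝔮 : ℕ → Ideal (𝓞 F)} {r P : ℕ → (𝓞 F)[X]} (hg : 1 ≤ g) (hG : IsGen g f θ) (hsq : SqF g f)
    (hF₁ : GoodF g W f₁) (hS : GoodS g W S 𝔮 r P) (hc1 : Cg (sp F W) f f₁)
    (hcq : ∀ q ∈ S, Cg (sp F q) f (P q)) (hJ : J ⊆ S)
    (hM : Mok M S 𝔮 f) (hθ : M⟮algebraMap L Ω θ⟯ = ⊤) (hr : Module.finrank M Ω = 2 * g + 1)
    {h : M[X]} (hne : aeval ((Dp J : Ω) * algebraMap L Ω θ) h ≠ 0)
    (hloc : ∀ w : HeightOneSpectrum (𝓞 M), LocF (w.adicCompletion M)
      (fF ((f.scaleRoots ((Dp J : ℕ) : 𝓞 F)).map (algebraMap (𝓞 F) (𝓞 M)))) h)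
    (hreal : ∀ σ : M →+* ℝ, LocIm ℝ
      ((fF ((f.scaleRoots ((Dp J : ℕ) : 𝓞 F)).map (algebraMap (𝓞 F) (𝓞 M)))).map σ) (h.map σ)) :
    Cnd M J 𝔮 f θ (aeval ((Dp J : Ω) * algebraMap L Ω θ) h) := by
  have hGM := isGen_up (M := M) hG hθ hr
  set fm : (𝓞 M)[X] := f.map (algebraMap (𝓞 F) (𝓞 M)) with hfm
  have hqp : ∀ q ∈ S, q.Prime := fun q hq => (hS q hq).1
  have hcQ : ∀ q ∈ S, Cg (𝔮 q) f (X * r q) := by
    intro q hq j
    obtain ⟨-, -, -, -, -, -, a2, -, -, -, -, -, -, a3, -⟩ := hS q hq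
    have b1 := Pool.Agent.N78.PF.sp_le (F := F) a2 (hcq q hq j)
    have b2 := a3 j
    have := Ideal.add_mem _ b1 b2
    simpa using this
  obtain ⟨D, hD⟩ : ∃ D : ℕ, D = Dp J := ⟨_, rfl⟩
  rw [← hD] at hne hloc hreal ⊢
  rw [scale_map hG.mon] at hloc hreal
  have hD0 : D ≠ 0 := by
    rw [hD, Dp, Finset.prod_ne_zero_iff]
    exact fun q hq => (hqp q (hJ hq)).ne_zero
  have hD8 : D % 8 = 1 := by
    rw [hD]
    have : ∀ T : Finset ℕ, T ⊆ S → (∏ q ∈ T, q) % 8 = 1 := by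
      intro T
      induction T using Finset.induction_on with
      | empty => intro _; rfl
      | insert a T ha ih =>
        intro hT
        rw [Finset.prod_insert ha, Nat.mul_mod, ih fun x hx => hT (Finset.mem_insert_of_mem hx),
          (hS a (hT (Finset.mem_insert_self _ _))).2.2.2.1]
    exact this J hJ
  refine ⟨fun 𝔓 h1 h2 h3 => ?_, fun q hq 𝔓 h1 v1 => ?_, ?_⟩
  · -- even valuations
    obtain ⟨w, hw⟩ := exists_ab (F := M) 𝔓
    refine Pool.Agent.N78.PF.ev_unit hGM (lies_ab hw) ?_ ?_ h ?_ (hloc w) hne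
    · rw [two_mem, ← val_lt_iff hw, map_ofNat, h1]
      exact lt_irrefl _
    · rw [nat_mem, ← val_lt_iff hw, map_natCast, hD, Dp, Nat.cast_prod, map_prod,
        Finset.prod_congr rfl h2, Finset.prod_const_one]
      exact lt_irrefl _
    · rw [hfm, der_up]
      exact h3
  · -- the primes in `J`
    have hqS := hJ hq
    obtain ⟨w, hw⟩ := exists_ab (F := M) 𝔓
    obtain ⟨v, hv⟩ := exists_ab (F := F) w
    obtain ⟨𝔭, h𝔭⟩ := exists_ab (F := L) 𝔓
    have hv𝔓 : Ab (E := Ω) v 𝔓 := ab_tr hv hw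
    have hv𝔭 : Ab v 𝔭 := ab_down hv𝔓 h𝔭
    have hpr : (𝔮 q).IsPrime := (hS q hqS).2.2.2.2.2.1
    have hmax : (𝔮 q).IsMaximal := hpr.isMaximal (q_ne hS hqS)
    have evq : 𝔮 q = v.asIdeal := by
      refine hmax.eq_of_le v.isPrime.ne_top fun a ha => ?_
      have h4 := (val_lt_iff hv𝔓 (a : F)).1 (h1 a ha)
      exact (HeightOneSpectrum.valuation_lt_one_iff_mem (K := F) v a).1 h4
    have hsp := hM.spl q hqS v evq.symm
    obtain ⟨a1, a2, a3, a4, a5, a6, a7, a8, a9, a10, a11, a12, a13, a14, a15⟩ := hS q hqS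
    have o1 : Ov (𝔮 q) 𝔭 := by
      rw [evq]
      exact ov_of_ab hv𝔭
    have v1' : 𝔭.valuation L θ = 1 := (val_eq_iff h𝔭 θ).1 v1
    obtain ⟨c1, -, c3, -⟩ := csq g W F L f θ S 𝔮 r P hg hG hsq hS q hqS (hcQ q hqS) 𝔭 o1 v1'
    have hder : 𝔓.valuation Ω (algebraMap L Ω (aeval θ (derivative (fF f)))) = 1 :=
      (val_eq_iff h𝔭 _).2 c3
    -- the valuation at `𝔓` is that at `w`
    have hwv : ∀ x : M, 𝔓.valuation Ω (algebraMap M Ω x) = w.valuation M x := by
      obtain ⟨w₁, hw₁⟩ := over_M (M := M) hG.mon hG.root hθ 𝔓 hder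
      have : w₁ = w := ab_unique (E := Ω) (fun x hx => by rw [hw₁]; exact hx) hw
      rw [← this]
      exact hw₁
    have vqv : v.valuation F (q : F) = exp (-1 : ℤ) := by
      obtain ⟨𝔓₁, 𝔓₂, e1, e2, e3, e4, e5, e6, e7⟩ :=
        exq g W F L f θ S 𝔮 r P hg hG hsq hS q hqS (hcQ q hqS)
      have h5 : 𝔭.valuation L (q : L) = exp (-1 : ℤ) := by
        rcases e7 𝔭 o1 with rfl | rfl
        · exact e5
        · exact e6
      obtain ⟨e, he0, he⟩ := ab_e (ov_of_ab hv𝔭)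
      have h6 := he (q : F)
      rw [map_natCast, h5] at h6
      have h7 := exp_pow' h6.symm
      rw [h7, pow_one] at h6
      exact h6.symm
    have vq : 𝔓.valuation Ω (algebraMap M Ω (q : M)) = WithZero.exp (-1 : ℤ) := by
      rw [hwv]
      have h5 := (hsp w hv).1 (q : F)
      rw [map_natCast] at h5
      rw [h5, vqv]
    haveI : Finite (𝓞 M ⧸ w.asIdeal) := Ideal.finiteQuotientOfFreeOfNeBot _ w.ne_bot
    haveI : Finite (𝓞 Ω ⧸ 𝔓.asIdeal) := Ideal.finiteQuotientOfFreeOfNeBot _ 𝔓.ne_bot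
    have h2q : (2 : 𝓞 F) ∉ 𝔮 q := by
      intro hm
      have h9 : ((q : 𝓞 F)) - 2 * ((q / 2 : ℕ) : 𝓞 F) = 1 := by
        have h10 : q = 2 * (q / 2) + 1 := by omega
        have h11 : (q : 𝓞 F) = 2 * ((q / 2 : ℕ) : 𝓞 F) + 1 := by
          exact_mod_cast congrArg (Nat.cast (R := 𝓞 F)) h10
        rw [h11]
        ring
      apply a6.ne_top
      rw [Ideal.eq_top_iff_one, ← h9]
      exact Ideal.sub_mem _ a7 (Ideal.mul_mem_right _ _ hm)
    have nat_mem' : ∀ p : ℕ, p.Prime → (p : 𝓞 F) ∈ 𝔮 q → p = q := by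
      intro p hp hpm
      by_contra hpq
      have hco : Nat.Coprime p q := (Nat.coprime_primes hp a1).2 hpq
      obtain ⟨u, v, huv⟩ := (Nat.isCoprime_iff_coprime.2 hco)
      apply a6.ne_top
      rw [Ideal.eq_top_iff_one]
      have h9 : (1 : 𝓞 F) = (u : 𝓞 F) * (p : 𝓞 F) + (v : 𝓞 F) * (q : 𝓞 F) := by
        have := congrArg (Int.cast (R := 𝓞 F)) huv
        push_cast at this
        exact this.symm
      rw [h9]
      exact Ideal.add_mem _ (Ideal.mul_mem_left _ _ hpm) (Ideal.mul_mem_left _ _ a7)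
    obtain ⟨D', hD'⟩ : ∃ D' : ℕ, D' = ∏ p ∈ J.erase q, p := ⟨_, rfl⟩
    have hDD : D = q * D' := by
      rw [hD, hD']
      exact (Finset.mul_prod_erase J (fun P => P) hq).symm
    have hD'm : (D' : 𝓞 F) ∉ 𝔮 q := by
      intro hd
      rw [hD', Nat.cast_prod] at hd
      haveI := a6
      obtain ⟨p, hp, hpm⟩ := (Ideal.IsPrime.prod_mem_iff).1 hd
      have hp' := Finset.mem_erase.1 hp
      exact hp'.1 (nat_mem' p (hqp p (hJ hp'.2)) hpm)
    have hunit : ∀ n : ℕ, (n : 𝓞 F) ∉ 𝔮 q → w.valuation M (n : M) = 1 := by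
      intro n hn
      have h5 := (val_eq_iff hv (n : F)).2 (val_nat_eq v n (by rw [← evq]; exact hn))
      rwa [map_natCast] at h5
    have v2 : w.valuation M 2 = 1 := by
      have := hunit 2 (by exact_mod_cast h2q)
      exact_mod_cast this
    have vD' : w.valuation M (D' : M) = 1 := hunit D' hD'm
    have s1 : Sq1 𝔓 (-1 : Ω) := by
      have h5 := c1 (-1) (by
        intro hm
        apply a6.ne_top
        rw [Ideal.eq_top_iff_one]
        have := Ideal.neg_mem_iff _ |>.2 hm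
        simpa using this)
      have h6 := sq_up h𝔭 h5
      simpa using h6
    have s2 : Sq1 𝔓 (algebraMap M Ω (D' : M)) := by
      have h6 := sq_up h𝔭 (c1 (D' : 𝓞 F) hD'm)
      simpa using h6
    have hl := hloc w
    rw [Pool.Agent.N78.PF.fF_scale hGM.mon, hDD, Nat.cast_mul] at hl
    have e8 : (D : Ω) = algebraMap M Ω ((q : M) * (D' : M)) := by
      rw [hDD]
      simp
    have e9 : (q : Ω) = algebraMap M Ω (q : M) := by simp
    rw [e8] at hne ⊢
    rw [e9]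
    refine Pool.Agent.N78.PF.LOC2 M Ω (𝓞 M) (𝓞 Ω) w 𝔓 (lies_ab hw) v2 g (fF fm) h
      ((r q).map (algebraMap (𝓞 F) (𝓞 M))) (q : M) (D' : M) (algebraMap L Ω θ) hg
      (hGM.mon.map _) ?_ (a8.map _) ?_ ?_ ?_ hGM.root v1 vq vD' s1 s2 hl hne
    · rw [fF, hGM.mon.natDegree_map, hGM.deg]
    · rw [a8.natDegree_map, a9]
    · exact irr_w hsp hv (by rw [← evq]; exact a10)
    · intro j
      have e1 : (X * (r q).map (algebraMap (𝓞 F) (𝓞 M))) =
          (X * r q).map (algebraMap (𝓞 F) (𝓞 M)) := by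
        rw [Polynomial.map_mul, map_X]
      rw [e1, fF, hfm, coeff_map, coeff_map, coeff_map, ← map_sub, ← map_sub]
      refine (HeightOneSpectrum.valuation_lt_one_iff_mem (K := M) w _).2 ?_
      refine ov_of_ab hv _ ?_
      rw [← evq]
      exact hcQ q hqS j
  · -- the image at two and at infinity
    have e0 : aeval (algebraMap L Ω θ) (h.comp (C ((D : ℕ) : M) * X)) =
        aeval ((D : Ω) * algebraMap L Ω θ) h := by
      rw [aeval_comp, map_mul, aeval_C, aeval_X, map_natCast]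
    refine ⟨h.comp (C ((D : ℕ) : M) * X), e0, fun w hw => ?_, fun σ => ?_⟩
    · haveI : Fact (Nat.Prime 2) := ⟨Nat.prime_two⟩
      obtain ⟨δ, hδ⟩ := Pool.Agent.N891.PQ.sq_two D hD8
      obtain ⟨ι, hι, -, -⟩ := Pool.Agent.N498.PQ.cpl M 2 w (by
        change ((2 : ℕ) : 𝓞 M) ∈ w.asIdeal
        exact_mod_cast hw)
      haveI : CharZero (w.adicCompletion M) :=
        charZero_of_injective_algebraMap (algebraMap M (w.adicCompletion M)).injective
      exact Pool.Agent.N78.PF.map_locF hGM.mon hGM.deg hD0 (ι δ)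
        (by rw [← map_pow, hδ, map_natCast]) h (hloc w)
    · letI : Algebra M ℝ := σ.toAlgebra
      exact Pool.Agent.N78.PF.map_locF (E := ℝ) hGM.mon hGM.deg hD0 (Real.sqrt D)
        (Real.sq_sqrt (Nat.cast_nonneg D)) h (hreal σ)

end top

end Run7.h23.Gn
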