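import Pool.Agent.Run7.h23.Gn.Cnd
import Pool.Agent.N783.PF.Final

/-!
# From the conditions over the extension to the conditions over `F`
-/

set_option autoImplicit false
set_option linter.all false

open Polynomial IsDedekindDomain WithZero NumberField
open scoped Classical IntermediateField

namespace Run7.h23.Gn

open Pool.Agent.N783.PF
open Pool.Agent.N874.PP (Ev Sq1 U0)
open Pool.Agent.N783.PQ (LocIm)
open Pool.Agent.N874.JM (LocF)
open Pool.Agent.N922.PQ (ev_down sq_down)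

section base

variable {F L : Type} [Field F] [NumberField F] [Field L] [NumberField L] [Algebra F L]

/-- The conditions on the extension. -/
structure Mok (M : Type) [Field M] [NumberField M] [Algebra F M] (S : Finset ℕ)
    (𝔮 : ℕ → Ideal (𝓞 F)) (f : (𝓞 F)[X]) : Prop where
  two : ∀ v : HeightOneSpectrum (𝓞 F), (2 : 𝓞 F) ∈ v.asIdeal → Sp v M
  spl : ∀ q ∈ S, ∀ v : HeightOneSpectrum (𝓞 F), v.asIdeal = 𝔮 q → Sp v M
  real : ∀ ρ : F →+* ℝ, ∃ τ : M →+* ℝ, ∀ x : F, τ (algebraMap F M x) = ρ x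
  ram : ∀ v : HeightOneSpectrum (𝓞 F), ¬ Un v M → Irreducible (rd v.asIdeal f)

theorem exists_poly {g : ℕ} {f : (𝓞 F)[X]} {θ : L} (hG : IsGen g f θ) (x : L) :
    ∃ h : F[X], aeval θ h = x := by
  obtain ⟨c, hc⟩ := hG.gen x
  refine ⟨∑ i, C (c i) * X ^ (i : ℕ), ?_⟩
  rw [hc, map_sum]
  refine Finset.sum_congr rfl fun i _ => ?_
  simp

/-- The primes over the primes of `S`. -/
theorem nat_mem_q {g W : ℕ} {S : Finset ℕ} {𝔮 : ℕ → Ideal (𝓞 F)} {r P : ℕ → (𝓞 F)[X]}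
    (hS : GoodS g W S 𝔮 r P) {q : ℕ} (hq : q ∈ S) : (q : 𝓞 F) ∈ 𝔮 q := (hS q hq).2.2.2.2.2.2.1

theorem q_ne {g W : ℕ} {S : Finset ℕ} {𝔮 : ℕ → Ideal (𝓞 F)} {r P : ℕ → (𝓞 F)[X]}
    (hS : GoodS g W S 𝔮 r P) {q : ℕ} (hq : q ∈ S) : 𝔮 q ≠ ⊥ := by
  intro h0
  have h := nat_mem_q hS hq
  rw [h0, Ideal.mem_bot] at h
  exact (hS q hq).1.ne_zero (by exact_mod_cast h)

variable {M Ω : Type} [Field M] [NumberField M] [Field Ω] [NumberField Ω] [Algebra F M]
  [Algebra L Ω] [Algebra M Ω] [Algebra F Ω] [IsScalarTower F L Ω] [IsScalarTower F M Ω]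

theorem base_sq {g W : ℕ} {f f₁ : (𝓞 F)[X]} {θ : L} {S J : Finset ℕ}
    {𝔮 : ℕ → Ideal (𝓞 F)} {r P : ℕ → (𝓞 F)[X]} (hg : 1 ≤ g) (hG : IsGen g f θ) (hsq : SqF g f)
    (hF₁ : GoodF g W f₁) (hS : GoodS g W S 𝔮 r P) (hc1 : Cg (sp F W) f f₁)
    (hcq : ∀ q ∈ S, Cg (sp F q) f (P q)) (hJ : J ⊆ S)
    (hsel : ∀ h : F[X], aeval θ h ≠ 0 → IsSquare (Algebra.norm F (aeval θ h)) →
      (∀ 𝔓 : HeightOneSpectrum (𝓞 L), (∀ q ∈ J, Ov (𝔮 q) 𝔓 → 𝔓.valuation L θ ≠ 1) →
        Ev 𝔓 (aeval θ h)) →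
      (∀ q ∈ J, ∀ 𝔓 : HeightOneSpectrum (𝓞 L), Ov (𝔮 q) 𝔓 → 𝔓.valuation L θ = 1 →
        U0 𝔓 ((q : L) * θ) (aeval θ h)) →
      (∀ w : HeightOneSpectrum (𝓞 F), (2 : 𝓞 F) ∈ w.asIdeal →
        LocF (w.adicCompletion F) (fF f) h) →
      (∀ σ : F →+* ℝ, LocIm ℝ ((fF f).map σ) (h.map σ)) → IsSquare (aeval θ h))
    (hM : Mok M S 𝔮 f) (hθ : M⟮algebraMap L Ω θ⟯ = ⊤) (hirr : Irreducible (fM M f))
    {x : L} (hx : x ≠ 0) (hC : Cnd M J 𝔮 f θ (algebraMap L Ω x))
    (hN : IsSquare (Algebra.norm F x)) : IsSquare x := by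
  obtain ⟨h₀, hh₀⟩ := exists_poly hG x
  have hcQ : ∀ q ∈ S, Cg (𝔮 q) f (X * r q) := by
    intro q hq j
    obtain ⟨-, -, -, -, -, -, a2, -, -, -, -, -, -, a3, -⟩ := hS q hq
    have b1 := Pool.Agent.N78.PF.sp_le (F := F) a2 (hcq q hq j)
    have b2 := a3 j
    have := Ideal.add_mem _ b1 b2
    simpa using this
  have hone : ∀ (v : HeightOneSpectrum (𝓞 F)) (𝔓 : HeightOneSpectrum (𝓞 L)), Ab v 𝔓 →
      ∀ n : ℕ, (n : 𝓞 F) ∉ v.asIdeal → 𝔓.valuation L (n : L) = 1 := by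
    intro v 𝔓 hv n hn
    have h1 := (val_eq_iff hv (n : F)).2 (val_nat_eq v n hn)
    rwa [map_natCast] at h1
  have hroot := hG.root
  -- the image at two and at infinity
  obtain ⟨h, hh, hh2, hhr⟩ := hC.loc
  have hdvd : fM M f ∣ h - h₀.map (algebraMap F M) := by
    have h1 : aeval (algebraMap L Ω θ) (h - h₀.map (algebraMap F M)) = 0 := by
      rw [map_sub, hh, aeval_map_algebraMap, aeval_algebraMap_apply, hh₀, sub_self]
    have h2 : minpoly M (algebraMap L Ω θ) = fM M f :=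
      (minpoly.eq_of_irreducible_of_monic hirr (root_up hroot) ((hG.mon.map _).map _)).symm
    rw [← h2]
    exact minpoly.dvd M _ h1
  have hfmap : ∀ {E : Type} [Field E] (τ : M →+* E) (ρ : F →+* E),
      (∀ y : F, τ (algebraMap F M y) = ρ y) →
      LocIm E ((fM M f).map τ) (h.map τ) → LocIm E ((fF f).map ρ) (h₀.map ρ) := by
    intro E _ τ ρ hτ H
    have h1 : (fM M f).map τ ∣ h.map τ - (h₀.map (algebraMap F M)).map τ := by
      have h2 := map_dvd (mapRingHom τ) hdvd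
      simpa using h2
    have h2 := locIm_congr h1 H
    have e : ∀ p : F[X], (p.map (algebraMap F M)).map τ = p.map ρ := by
      intro p
      rw [Polynomial.map_map]
      congr 1
      exact RingHom.ext hτ
    rw [fM, fF_map, e, e] at h2
    exact h2
  rw [← hh₀] at hx hN ⊢
  refine hsel h₀ hx hN (fun 𝔓 h𝔓 => ?_) (fun q hq 𝔓 o1 v1 => ?_) (fun v hv => ?_) (fun ρ => ?_)
  · -- even valuations
    obtain ⟨v, hv⟩ := exists_ab (F := F) 𝔓
    have hov := ov_of_ab hv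
    by_cases hI : Irreducible (rd v.asIdeal f)
    · exact Pool.Agent.N426.PF.pin int g F L f θ hG hsq v.asIdeal v.isPrime v.ne_bot hI _ hx hN 𝔓
        hov
    have c2 : (2 : 𝓞 F) ∉ v.asIdeal := by
      intro c2
      have hW : (W : 𝓞 F) ∈ v.asIdeal := by
        obtain ⟨k, hk⟩ := hF₁.two
        rw [hk]
        push_cast
        exact Ideal.mul_mem_right _ _ c2
      have e1 := Pool.Agent.N78.PF.rd_eq (Pool.Agent.N78.PF.sp_le hW) hc1
      exact hI (by rw [e1]; exact hF₁.irr _ v.isPrime c2)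
    by_cases cq : ∃ q ∈ J, (q : 𝓞 F) ∈ v.asIdeal
    · obtain ⟨q, hq, hqw⟩ := cq
      have hqS := hJ hq
      by_cases cw : v.asIdeal = 𝔮 q
      · have o1 : Ov (𝔮 q) 𝔓 := by
          rw [← cw]
          exact hov
        have v1 : 𝔓.valuation L θ < 1 :=
          lt_of_le_of_ne (Pool.Agent.N78.PF.val_theta hG 𝔓) (h𝔓 q hq o1)
        exact Pool.Agent.N426.PF.parq int exq g W F L f θ S 𝔮 r P hg hG hsq hS q hqS (hcQ q hqS) _
          hx hN 𝔓 o1 v1
      · exfalso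
        have e1 := Pool.Agent.N78.PF.rd_eq (Pool.Agent.N78.PF.sp_le hqw) (hcq q hqS)
        obtain ⟨-, -, -, -, -, -, -, -, -, -, -, -, -, -, a1⟩ := hS q hqS
        exact hI (by rw [e1]; exact a1 _ v.isPrime hqw cw)
    · have hun : Un v M := by
        by_contra hc
        exact hI (hM.ram v hc)
      have key : ∀ 𝔓 : HeightOneSpectrum (𝓞 L), Ab v 𝔓 →
          𝔓.valuation L (aeval θ (derivative (fF f))) = 1 → Ev 𝔓 (aeval θ h₀) := by
        intro 𝔓 hv h2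
        obtain ⟨𝔓', hd, w, hw, hvw⟩ := up (M := M) (Ω := Ω) hG.mon hroot hθ hun 𝔓 hv h2
        rw [← ev_down hd, hh₀]
        refine hC.ev 𝔓' ?_ (fun q hq => ?_) ?_
        · have := hone v 𝔓 hv 2 (by exact_mod_cast c2)
          rw [← hd, map_natCast] at this
          exact_mod_cast this
        · have := hone v 𝔓 hv q fun hm => cq ⟨q, hq, hm⟩
          rwa [← hd, map_natCast] at this
        · rw [hd]
          exact h2
      by_cases cu : 𝔓.valuation L (aeval θ (derivative (fF f))) = 1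
      · exact key 𝔓 hv cu
      · have v1 : 𝔓.valuation L (aeval θ (derivative (fF f))) < 1 :=
          lt_of_le_of_ne (Pool.Agent.N78.PF.val_der hG 𝔓) cu
        obtain ⟨⟨c, hc⟩, hother⟩ :=
          Pool.Agent.N459.PF.ram int g F L f θ hG hsq v.asIdeal v.isPrime v.ne_bot 𝔓 hov v1
        refine Pool.Agent.N426.PF.par int g F L f θ hG hsq v.asIdeal v.isPrime v.ne_bot 𝔓 c hov hc _
          hx hN ?_
        intro 𝔓' o' n'
        exact key 𝔓' (ab_of_ov o') (hother 𝔓' o' n')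
  · -- the primes in `J`
    have hqS := hJ hq
    obtain ⟨v, hv⟩ := exists_ab (F := F) 𝔓
    have hpr : (𝔮 q).IsPrime := (hS q hqS).2.2.2.2.2.1
    have ev : 𝔮 q = v.asIdeal := by
      have hmax : (𝔮 q).IsMaximal := hpr.isMaximal (q_ne hS hqS)
      have e := eq_under (ov_of_ab hv)
      rw [e]
      exact hmax.eq_of_le (𝔓.under (𝓞 F)).isPrime.ne_top fun a ha => o1 a ha
    have hsp := hM.spl q hqS v ev.symm
    have hder := (csq g W F L f θ S 𝔮 r P hg hG hsq hS q hqS (hcQ q hqS) 𝔓 o1 v1).2.2.1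
    obtain ⟨𝔓', hd, w, hw, hvw⟩ := up (M := M) (Ω := Ω) hG.mon hroot hθ hsp.un 𝔓 hv hder
    have hden := dens_up (F := F) (M := M) (Ω := Ω) (f := f) hθ hsp hvw hw (by rw [hd]; exact v1.le)
    have h3 := hC.u0 q hq 𝔓' (fun a ha => by
      rw [IsScalarTower.algebraMap_apply F L Ω, hd]
      apply hv
      have ha' : a ∈ v.asIdeal := ev ▸ ha
      exact (HeightOneSpectrum.valuation_lt_one_iff_mem (K := F) v a).2 ha')
      (by rw [hd]; exact v1)
    rw [hh₀]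
    refine ⟨fun h4 => sq_down hd hden (h3.1 ((ev_down hd x).2 h4)), fun h4 => ?_⟩
    have h5 := h3.2 fun h6 => h4 ((ev_down hd x).1 h6)
    have e : algebraMap L Ω x * ((q : Ω) * algebraMap L Ω θ) =
        algebraMap L Ω (x * ((q : L) * θ)) := by
      rw [map_mul, map_mul, map_natCast]
    rw [e] at h5
    exact sq_down hd hden h5
  · -- the primes over two
    obtain ⟨w, hvw⟩ : ∃ w : HeightOneSpectrum (𝓞 M), Ab v w := by
      obtain ⟨w, e, he⟩ := over_e (𝓞 F) (𝓞 M) (F := F) (F' := M) v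
      refine ⟨w, ?_⟩
      obtain ⟨𝔭, h𝔭⟩ := exists_ab (F := F) w
      obtain ⟨π, hπ⟩ := 𝔭.valuation_exists_uniformizer F
      have h3 : w.valuation M (algebraMap F M π) < 1 := by
        apply h𝔭
        rw [hπ, ← exp_zero, exp_lt_exp]
        norm_num
      have he0 : e ≠ 0 := by
        rintro rfl
        rw [he, pow_zero] at h3
        exact lt_irrefl _ h3
      intro y hy
      rw [he]
      exact pow_lt_one' hy he0
    have hsp := hM.two v hv
    have h2w : (2 : 𝓞 M) ∈ w.asIdeal := by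
      rw [two_mem] at hv ⊢
      have := hvw 2 hv
      rwa [map_ofNat] at this
    obtain ⟨ρ, hρ⟩ := back v w (hsp w hvw).1 (hsp w hvw).2
    have h4 := locIm_map ρ (hh2 w h2w)
    rw [Polynomial.map_map (p := fM M f), Polynomial.map_map (p := h)] at h4
    exact hfmap (ρ.comp (algebraMap M (w.adicCompletion M))) (algebraMap F (v.adicCompletion F))
      (fun y => hρ y) h4
  · obtain ⟨τ, hτ⟩ := hM.real ρ
    exact hfmap τ ρ hτ (hhr τ)

end base

end Run7.h23.Gn
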