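import Pool.Agent.Run7.h23.Gn.Val
import Pool.Agent.N78.PF.Loc
import Pool.Agent.N771.PF.Core
import Pool.Agent.N415.PQ.SigLie
import Pool.Agent.N301.JM.TOW

/-!
# The conditions for elements of the extension
-/

set_option autoImplicit false
set_option linter.all false

open Polynomial IsDedekindDomain WithZero NumberField
open scoped Classical IntermediateField

namespace Run7.h23.Gn

open Pool.Agent.N783.PF
open Pool.Agent.N874.PP (Ev Sq1 U0)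
open Pool.Agent.N783.PQ (LocIm)
open Pool.Agent.N874.JM (LocF)
open Pool.Agent.N922.PQ (ev_down sq_down ev_sq ev_mul)

theorem two_mem {M : Type} [Field M] [NumberField M] (w : HeightOneSpectrum (𝓞 M)) :
    (2 : 𝓞 M) ∈ w.asIdeal ↔ w.valuation M 2 < 1 := by
  rw [← HeightOneSpectrum.valuation_lt_one_iff_mem (K := M)]
  rfl

theorem nat_mem {M : Type} [Field M] [NumberField M] (w : HeightOneSpectrum (𝓞 M)) (q : ℕ) :
    (q : 𝓞 M) ∈ w.asIdeal ↔ w.valuation M (q : M) < 1 := by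
  rw [← HeightOneSpectrum.valuation_lt_one_iff_mem (K := M)]
  change w.valuation M (algebraMap (𝓞 M) M (q : 𝓞 M)) < 1 ↔ _
  rw [map_natCast]

theorem val_nat_le {M : Type} [Field M] [NumberField M] (w : HeightOneSpectrum (𝓞 M)) (q : ℕ) :
    w.valuation M (q : M) ≤ 1 := by
  have h : w.valuation M (algebraMap (𝓞 M) M (q : 𝓞 M)) ≤ 1 :=
    HeightOneSpectrum.valuation_le_one (K := M) w (q : 𝓞 M)
  rwa [map_natCast] at h

theorem val_nat_eq {M : Type} [Field M] [NumberField M] (w : HeightOneSpectrum (𝓞 M)) (q : ℕ)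
    (h : (q : 𝓞 M) ∉ w.asIdeal) : w.valuation M (q : M) = 1 :=
  le_antisymm (val_nat_le w q) (not_lt.1 fun h' => h ((nat_mem w q).2 h'))

/-! ### Local images -/

theorem locIm_map {E E' : Type} [Field E] [Field E'] (φ : E →+* E') {f h : E[X]}
    (H : LocIm E f h) : LocIm E' (f.map φ) (h.map φ) := by
  obtain ⟨l, s, h1, h2⟩ := H
  refine ⟨l.map fun p => (p.1.map φ, p.2.map φ), s.map φ, ?_, ?_⟩
  · intro p hp
    obtain ⟨p', hp', rfl⟩ := List.mem_map.1 hp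
    obtain ⟨a1, a2, a3⟩ := h1 p' hp'
    refine ⟨a1.map φ, a2.map (mapRingHom φ), ?_⟩
    have h3 := map_dvd (mapRingHom φ) a3
    simpa using h3
  · have h3 := map_dvd (mapRingHom φ) h2
    have e : ((l.map fun p => (p.1.map φ, p.2.map φ)).map
        fun p : E'[X] × E'[X] => (-1) ^ p.1.natDegree * p.1).prod =
        ((l.map fun p : E[X] × E[X] => (-1) ^ p.1.natDegree * p.1).prod).map φ := by
      rw [List.map_map, Polynomial.map_list_prod, List.map_map]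
      congr 1
      refine List.map_congr_left fun p _ => ?_
      simp [natDegree_map]
    rw [e]
    simpa using h3

theorem locIm_congr {E : Type} [Field E] {f h h' : E[X]} (hd : f ∣ h - h') (H : LocIm E f h) :
    LocIm E f h' := by
  obtain ⟨l, s, h1, h2⟩ := H
  refine ⟨l, s, h1, ?_⟩
  have e : h' * (l.map fun p => (-1) ^ p.1.natDegree * p.1).prod - s ^ 2 =
      (h * (l.map fun p => (-1) ^ p.1.natDegree * p.1).prod - s ^ 2) -
        (h - h') * (l.map fun p => (-1) ^ p.1.natDegree * p.1).prod := by ring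
  rw [e]
  exact dvd_sub h2 (hd.mul_right _)

theorem locIm_sq {E : Type} [Field E] (f h : E[X]) : LocIm E f (h ^ 2) :=
  ⟨[], h, by simp, by simp⟩

section cond

variable {F L M Ω : Type} [Field F] [NumberField F] [Field L] [NumberField L] [Field M]
  [NumberField M] [Field Ω] [NumberField Ω] [Algebra F L] [Algebra F M] [Algebra L Ω]
  [Algebra M Ω] [Algebra F Ω] [IsScalarTower F L Ω] [IsScalarTower F M Ω]

/-- The polynomial over `M`. -/
noncomputable abbrev fM (M : Type) [Field M] [NumberField M] [Algebra F M] (f : (𝓞 F)[X]) : M[X] :=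
  fF (f.map (algebraMap (𝓞 F) (𝓞 M)))

/-- The element is locally in the image of the Jacobian over `M` at the primes over two and at the real
places. -/
def C3 (M : Type) [Field M] [NumberField M] [Algebra F M] [Algebra M Ω] (f : (𝓞 F)[X]) (t : Ω)
    (x : Ω) : Prop :=
  ∃ h : M[X], aeval t h = x ∧
    (∀ w : HeightOneSpectrum (𝓞 M), (2 : 𝓞 M) ∈ w.asIdeal →
      LocF (w.adicCompletion M) (fM M f) h) ∧
    ∀ σ : M →+* ℝ, LocIm ℝ ((fM M f).map σ) (h.map σ)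

/-- The conditions. -/
structure Cnd (M : Type) [Field M] [NumberField M] [Algebra F M] [Algebra M Ω] (J : Finset ℕ)
    (𝔮 : ℕ → Ideal (𝓞 F)) (f : (𝓞 F)[X]) (θ : L) (x : Ω) : Prop where
  ev : ∀ 𝔓 : HeightOneSpectrum (𝓞 Ω), 𝔓.valuation Ω 2 = 1 →
    (∀ q ∈ J, 𝔓.valuation Ω (q : Ω) = 1) →
    𝔓.valuation Ω (algebraMap L Ω (aeval θ (derivative (fF f)))) = 1 → Ev 𝔓 x
  u0 : ∀ q ∈ J, ∀ 𝔓 : HeightOneSpectrum (𝓞 Ω),
    (∀ a ∈ 𝔮 q, 𝔓.valuation Ω (algebraMap F Ω (a : F)) < 1) →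
    𝔓.valuation Ω (algebraMap L Ω θ) = 1 → U0 𝔓 ((q : Ω) * algebraMap L Ω θ) x
  loc : C3 M f (algebraMap L Ω θ) x

theorem cnd_sq {J : Finset ℕ} {𝔮 : ℕ → Ideal (𝓞 F)} {f : (𝓞 F)[X]} {θ : L}
    (hθ : M⟮algebraMap L Ω θ⟯ = ⊤) {x : Ω} (hx : x ≠ 0) : Cnd M J 𝔮 f θ (x ^ 2) where
  ev 𝔓 _ _ _ := ev_sq 𝔓 x
  u0 q _ 𝔓 _ _ := by
    refine ⟨fun _ => ⟨x, ?_⟩, fun h => absurd (ev_sq 𝔓 x) h⟩
    rw [sub_self, map_zero, zero_lt_iff]
    exact (Valuation.ne_zero_iff _).2 (pow_ne_zero _ hx)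
  loc := by
    haveI : FiniteDimensional M Ω := Module.Finite.of_restrictScalars_finite ℚ M Ω
    have h1 : x ∈ Algebra.adjoin M {algebraMap L Ω θ} := by
      have h2 := IntermediateField.adjoin_simple_toSubalgebra_of_isAlgebraic
        (Algebra.IsAlgebraic.isAlgebraic (R := M) (algebraMap L Ω θ))
      rw [← h2, hθ]
      trivial
    rw [Algebra.adjoin_singleton_eq_range_aeval] at h1
    obtain ⟨p, hp⟩ := h1
    have hp' : aeval (algebraMap L Ω θ) p = x := hp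
    refine ⟨p ^ 2, by rw [map_pow, hp'], fun w _ => ?_, fun σ => ?_⟩
    · have h2 := locIm_sq ((fM M f).map (algebraMap M (w.adicCompletion M)))
        (p.map (algebraMap M (w.adicCompletion M)))
      rw [← Polynomial.map_pow] at h2
      exact h2
    · rw [Polynomial.map_pow]
      exact locIm_sq _ _

theorem cnd_mul {J : Finset ℕ} {𝔮 : ℕ → Ideal (𝓞 F)} {f : (𝓞 F)[X]} {θ : L}
    (hJ : ∀ q ∈ J, q.Prime ∧ q ≠ 2 ∧ (q : 𝓞 F) ∈ 𝔮 q)
    (hϖ : ∀ q ∈ J, ∀ 𝔓 : HeightOneSpectrum (𝓞 Ω),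
      (∀ a ∈ 𝔮 q, 𝔓.valuation Ω (algebraMap F Ω (a : F)) < 1) →
      𝔓.valuation Ω (algebraMap L Ω θ) = 1 → ¬ Ev 𝔓 ((q : Ω) * algebraMap L Ω θ))
    {x y : Ω} (hx : x ≠ 0) (hy : y ≠ 0) (h : Cnd M J 𝔮 f θ x) (h' : Cnd M J 𝔮 f θ y) :
    Cnd M J 𝔮 f θ (x * y) where
  ev 𝔓 h1 h2 h3 := ev_mul (h.ev 𝔓 h1 h2 h3) (h'.ev 𝔓 h1 h2 h3)
  u0 q hq 𝔓 h1 h3 := by
    have h4 := hϖ q hq 𝔓 h1 h3
    have h5 : (q : Ω) * algebraMap L Ω θ ≠ 0 := by
      intro h0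
      apply h4
      rw [h0]
      exact ⟨0, by simp⟩
    obtain ⟨a1, a2, a3⟩ := hJ q hq
    have h6 : Pool.Agent.N783.PQ.Ov q 𝔓 := by
      have h7 := h1 _ a3
      have e : algebraMap F Ω (((q : 𝓞 F)) : F) = algebraMap (𝓞 Ω) Ω (q : 𝓞 Ω) := by simp
      rw [e, HeightOneSpectrum.valuation_lt_one_iff_mem] at h7
      exact h7
    exact ((Pool.Agent.N457.PQ.cls Ω q 𝔓 _ a1 a2 h6 h5 h4 x y hx hy).2).2
      ⟨fun _ => h'.u0 q hq 𝔓 h1 h3, fun _ => h.u0 q hq 𝔓 h1 h3⟩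
  loc := by
    obtain ⟨a, a1, a2, a3⟩ := h.loc
    obtain ⟨b, b1, b2, b3⟩ := h'.loc
    refine ⟨a * b, by rw [map_mul, a1, b1], fun w hw => ?_, fun σ => ?_⟩
    · exact Pool.Agent.N771.PF.locF_mul (a2 w hw) (b2 w hw)
    · rw [Polynomial.map_mul]
      exact Pool.Agent.N891.PQ.LocIm.mul (a3 σ) (b3 σ)

/-- `C3` is stable under the Galois group. -/
theorem c3_sig [Normal F M] {f : (𝓞 F)[X]} {t : Ω} (σ : Ω ≃ₐ[F] Ω) (ht : σ t = t) {x : Ω}
    (h : C3 M f t x) : C3 M f t (σ x) := by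
  obtain ⟨p, h1, h2, h3⟩ := h
  let τ : M ≃ₐ[F] M := AlgEquiv.restrictNormal σ M
  have hτ : ∀ m : M, algebraMap M Ω (τ m) = σ (algebraMap M Ω m) := fun m =>
    AlgEquiv.restrictNormal_commutes σ M m
  have hfτ : (fM M f).map (τ : M →+* M) = fM M f := by
    rw [fM, fF_map, Polynomial.map_map]
    congr 1
    ext y
    exact τ.commutes y
  refine ⟨p.map (τ : M →+* M), ?_, fun w hw => ?_, fun ρ => ?_⟩
  · rw [← h1]
    have e1 := Polynomial.hom_eval₂ p (algebraMap M Ω) (σ : Ω →+* Ω) t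
    rw [aeval_def, aeval_def, eval₂_map]
    have e2 : ((algebraMap M Ω).comp (τ : M →+* M)) = ((σ : Ω →+* Ω)).comp (algebraMap M Ω) := by
      ext m
      exact hτ m
    rw [e2]
    have e3 : (σ : Ω →+* Ω) t = t := ht
    rw [e3] at e1
    exact e1.symm
  · obtain ⟨w', hw', -⟩ := Pool.Agent.N415.PQ.sig M (𝓞 M) (τ : M ≃+* M) w
    have h2w : (2 : 𝓞 M) ∈ w'.asIdeal := by
      rw [two_mem] at hw ⊢
      rw [hw']
      have e3 : (τ : M ≃+* M) 2 = 2 := map_ofNat _ 2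
      rw [e3]
      exact hw
    obtain ⟨j, hj, -, -⟩ := Pool.Agent.TH115.GD.exists_compl_map w' w (τ : M →+* M)
      (fun y hy => by
        have := hw' y
        rw [this] at hy
        exact hy)
      (fun y hy => by
        have := hw' y
        rw [this] at hy
        exact hy)
    have h4 := locIm_map j (h2 w' h2w)
    have e : ∀ r : M[X], ((r.map (algebraMap M (w'.adicCompletion M))).map j) =
        (r.map (τ : M →+* M)).map (algebraMap M (w.adicCompletion M)) := by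
      intro r
      rw [Polynomial.map_map, Polynomial.map_map]
      congr 1
      exact RingHom.ext fun y => hj y
    rw [e, e, hfτ] at h4
    exact h4
  · have h4 := h3 (ρ.comp (τ : M →+* M))
    rw [← Polynomial.map_map, ← Polynomial.map_map, hfτ] at h4
    exact h4

theorem cnd_sig [Normal F M] {J : Finset ℕ} {𝔮 : ℕ → Ideal (𝓞 F)} {f : (𝓞 F)[X]} {θ : L}
    (σ : Ω ≃ₐ[L] Ω) {x : Ω} (h : Cnd M J 𝔮 f θ x) : Cnd M J 𝔮 f θ (σ x) := by
  have hf : ∀ y : L, σ (algebraMap L Ω y) = algebraMap L Ω y := fun y => σ.commutes y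
  have hF : ∀ y : F, σ (algebraMap F Ω y) = algebraMap F Ω y := fun y => by
    rw [IsScalarTower.algebraMap_apply F L Ω, hf]
  have hev : ∀ (𝔓 𝔓' : HeightOneSpectrum (𝓞 Ω)),
      (∀ y : Ω, 𝔓'.valuation Ω y = 𝔓.valuation Ω (σ y)) → ∀ y : Ω, Ev 𝔓' y ↔ Ev 𝔓 (σ y) := by
    intro 𝔓 𝔓' hv y
    constructor
    · rintro ⟨z, hz⟩
      exact ⟨σ z, by rw [← hv, ← hv, hz]⟩
    · rintro ⟨z, hz⟩
      refine ⟨σ.symm z, ?_⟩
      rw [hv, hv, σ.apply_symm_apply, hz]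
  have hsq : ∀ (𝔓 𝔓' : HeightOneSpectrum (𝓞 Ω)),
      (∀ y : Ω, 𝔓'.valuation Ω y = 𝔓.valuation Ω (σ y)) → ∀ y : Ω, Sq1 𝔓' y → Sq1 𝔓 (σ y) := by
    rintro 𝔓 𝔓' hv y ⟨z, hz⟩
    refine ⟨σ z, ?_⟩
    rw [hv, hv, map_sub, map_pow] at hz
    exact hz
  refine ⟨fun 𝔓 h1 h2 h3 => ?_, fun q hq 𝔓 h1 h2 => ?_, ?_⟩
  · obtain ⟨𝔓', hv, -⟩ := Pool.Agent.N415.PQ.sig Ω (𝓞 Ω) (σ : Ω ≃+* Ω) 𝔓
    have hv' : ∀ y : Ω, 𝔓'.valuation Ω y = 𝔓.valuation Ω (σ y) := hv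
    refine (hev 𝔓 𝔓' hv' x).1 (h.ev 𝔓' ?_ (fun q hq => ?_) ?_)
    · rw [hv', map_ofNat]
      exact h1
    · rw [hv', map_natCast]
      exact h2 q hq
    · rw [hv', hf]
      exact h3
  · obtain ⟨𝔓', hv, -⟩ := Pool.Agent.N415.PQ.sig Ω (𝓞 Ω) (σ : Ω ≃+* Ω) 𝔓
    have hv' : ∀ y : Ω, 𝔓'.valuation Ω y = 𝔓.valuation Ω (σ y) := hv
    have h3 := h.u0 q hq 𝔓' (fun a ha => by rw [hv', hF]; exact h1 a ha)
      (by rw [hv', hf]; exact h2)
    refine ⟨fun h4 => hsq 𝔓 𝔓' hv' x (h3.1 ((hev 𝔓 𝔓' hv' x).2 h4)), fun h4 => ?_⟩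
    have h5 := hsq 𝔓 𝔓' hv' _ (h3.2 fun h6 => h4 ((hev 𝔓 𝔓' hv' x).1 h6))
    rw [map_mul, map_mul, map_natCast, hf] at h5
    exact h5
  · exact c3_sig (σ.restrictScalars F) (hf θ) h.loc

end cond

end Run7.h23.Gn
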