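import Pool.Agent.TH115.TC.Compl

/-!
# Primes which split completely: density and completions
-/

set_option autoImplicit false
set_option linter.all false

open IsDedekindDomain WithZero Filter Topology MonoidWithZeroHom NumberField

namespace Run7.h23.Gn

theorem le_exp_of_lt {a : WithZero (Multiplicative ℤ)} (h : a < 1) : a ≤ exp (-1 : ℤ) := by
  by_cases h0 : a = 0
  · rw [h0]
    exact zero_le'
  · rw [← exp_log h0, ← exp_zero, exp_lt_exp] at h
    rw [← exp_log h0, exp_le_exp]
    omega

theorem eq_zero_of_le {a : WithZero (Multiplicative ℤ)} (h : ∀ n : ℕ, a ≤ exp (-(n : ℤ))) :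
    a = 0 := by
  by_contra h0
  obtain ⟨r, hr⟩ : ∃ r : ℤ, a = exp r := ⟨log a, (exp_log h0).symm⟩
  have h1 := h ((-r).toNat + 1)
  rw [hr, exp_le_exp] at h1
  have := Int.self_le_toNat (-r)
  push_cast at h1
  omega

section seq

variable {A F : Type*} [CommRing A] [IsDedekindDomain A] [Field F] [Algebra A F]
  [IsFractionRing A F] (v : HeightOneSpectrum A)

/-- Limits. -/
theorem lim_seq (c : ℕ → v.adicCompletion F)
    (hc : ∀ n, Valued.v (c (n + 1) - c n) ≤ exp (-(n : ℤ))) :
    ∃ y : v.adicCompletion F, ∀ n, Valued.v (y - c n) ≤ exp (-(n : ℤ)) := by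
  have hcc : ∀ n k, Valued.v (c (n + k) - c n) ≤ exp (-(n : ℤ)) := by
    intro n k
    induction k with
    | zero =>
      rw [add_zero, sub_self, map_zero]
      exact zero_le'
    | succ k ih =>
      have e : c (n + (k + 1)) - c n = (c (n + k + 1) - c (n + k)) + (c (n + k) - c n) := by
        rw [← add_assoc]
        ring
      rw [e]
      refine (Valuation.map_add _ _ _).trans (max_le ((hc (n + k)).trans ?_) ih)
      rw [exp_le_exp]
      push_cast
      omega
  have hcc' : ∀ n m, n ≤ m → Valued.v (c m - c n) ≤ exp (-(n : ℤ)) := by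
    intro n m hnm
    obtain ⟨k, rfl⟩ := Nat.exists_eq_add_of_le hnm
    exact hcc n k
  have hcau : Cauchy (map c atTop) := by
    rw [Valued.cauchy_iff]
    refine ⟨inferInstance, fun γ => ?_⟩
    have hg : ValueGroup₀.embedding γ.1 ≠ 0 := by
      rw [Ne, map_eq_zero]
      exact γ.ne_zero
    obtain ⟨n, hn, -⟩ := exists_exp_neg_natCast_lt_and_lt hg hg
    refine ⟨c '' {m | n ≤ m}, image_mem_map (mem_atTop n), ?_⟩
    rintro _ ⟨a, ha, rfl⟩ _ ⟨b, hb, rfl⟩
    rw [Valuation.restrict_lt_iff_lt_embedding]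
    refine lt_of_le_of_lt ?_ hn
    have e : c b - c a = (c b - c n) - (c a - c n) := by ring
    rw [e]
    exact (Valuation.map_sub _ _ _).trans (max_le (hcc' n b hb) (hcc' n a ha))
  obtain ⟨y, hy⟩ := CompleteSpace.complete hcau
  refine ⟨y, fun n => ?_⟩
  obtain ⟨π, hπ⟩ := v.valuation_exists_uniformizer F
  have hπ0 : π ≠ 0 := by
    rintro rfl
    rw [map_zero] at hπ
    exact exp_ne_zero hπ.symm
  have hne : (Valued.v (R := v.adicCompletion F)).restrict
      (algebraMap F (v.adicCompletion F) (π ^ n)) ≠ 0 := by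
    rw [Valuation.ne_zero_iff]
    exact (map_ne_zero _).2 (pow_ne_zero n hπ0)
  have hvn : Valued.v (algebraMap F (v.adicCompletion F) (π ^ n)) = exp (-(n : ℤ)) := by
    have e : Valued.v (algebraMap F (v.adicCompletion F) (π ^ n)) = v.valuation F (π ^ n) :=
      HeightOneSpectrum.valuedAdicCompletion_eq_valuation' v (π ^ n)
    rw [e, map_pow, hπ, ← exp_nsmul]
    congr 1
    simp
  have hU : {z : v.adicCompletion F | Valued.v (z - y) < exp (-(n : ℤ))} ∈ 𝓝 y := by
    rw [Valued.mem_nhds]
    refine ⟨Units.mk0 _ hne, fun z hz => ?_⟩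
    have h1 : Valued.v (z - y) < Valued.v (algebraMap F (v.adicCompletion F) (π ^ n)) :=
      (Valuation.restrict_lt_iff _).1 hz
    rw [hvn] at h1
    exact h1
  have h2 : ∀ᶠ m in atTop, Valued.v (c m - y) < exp (-(n : ℤ)) := hy hU
  obtain ⟨m, hm1, hm2⟩ := (h2.and (eventually_ge_atTop n)).exists
  have e : y - c n = (c m - c n) - (c m - y) := by ring
  rw [e]
  exact (Valuation.map_sub _ _ _).trans (max_le (hcc' n m hm2) hm1.le)

/-- Density of the field in the completion. -/
theorem near (z : v.adicCompletion F) (n : ℕ) :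
    ∃ x : F, Valued.v (z - algebraMap F (v.adicCompletion F) x) ≤ exp (-(n : ℤ)) := by
  obtain ⟨π, hπ⟩ := v.valuation_exists_uniformizer F
  have hπ0 : π ≠ 0 := by
    rintro rfl
    rw [map_zero] at hπ
    exact exp_ne_zero hπ.symm
  have hne : (Valued.v (R := v.adicCompletion F)).restrict
      (algebraMap F (v.adicCompletion F) (π ^ n)) ≠ 0 := by
    rw [Valuation.ne_zero_iff]
    exact (map_ne_zero _).2 (pow_ne_zero n hπ0)
  have hvn : Valued.v (algebraMap F (v.adicCompletion F) (π ^ n)) = exp (-(n : ℤ)) := by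
    have e : Valued.v (algebraMap F (v.adicCompletion F) (π ^ n)) = v.valuation F (π ^ n) :=
      HeightOneSpectrum.valuedAdicCompletion_eq_valuation' v (π ^ n)
    rw [e, map_pow, hπ, ← exp_nsmul]
    congr 1
    simp
  have hU : {x : v.adicCompletion F | Valued.v (x - z) < exp (-(n : ℤ))} ∈ 𝓝 z := by
    rw [Valued.mem_nhds]
    refine ⟨Units.mk0 _ hne, fun x hx => ?_⟩
    have h1 : Valued.v (x - z) < Valued.v (algebraMap F (v.adicCompletion F) (π ^ n)) :=
      (Valuation.restrict_lt_iff _).1 hx
    rw [hvn] at h1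
    exact h1
  obtain ⟨_, ⟨x, rfl⟩, hx⟩ := Dense.inter_nhds_nonempty
    (HeightOneSpectrum.denseRange_algebraMap F v) hU
  refine ⟨x, ?_⟩
  rw [Valuation.map_sub_swap]
  exact le_of_lt hx

end seq

section spl

variable {F M : Type} [Field F] [NumberField F] [Field M] [NumberField M] [Algebra F M]

/-- Density of `F` in `M` at a prime of degree one. -/
theorem dns (v : HeightOneSpectrum (𝓞 F)) (w : HeightOneSpectrum (𝓞 M))
    (hvw : ∀ x : F, w.valuation M (algebraMap F M x) = v.valuation F x)
    (hres : ∀ m : M, w.valuation M m ≤ 1 → ∃ c : F, w.valuation M (m - algebraMap F M c) < 1)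
    (n : ℕ) (m : M) : ∃ c : F, w.valuation M (m - algebraMap F M c) ≤ exp (-(n : ℤ)) := by
  obtain ⟨π, hπ⟩ := v.valuation_exists_uniformizer F
  have hπ0 : π ≠ 0 := by
    rintro rfl
    rw [map_zero] at hπ
    exact exp_ne_zero hπ.symm
  have hπM : w.valuation M (algebraMap F M π) = exp (-1 : ℤ) := by rw [hvw, hπ]
  have hπM0 : algebraMap F M π ≠ 0 := (map_ne_zero _).2 hπ0
  have key : ∀ (n : ℕ) (m : M), w.valuation M m ≤ 1 →
      ∃ c : F, w.valuation M (m - algebraMap F M c) ≤ exp (-(n : ℤ)) := by
    intro n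
    induction n with
    | zero =>
      intro m hm
      refine ⟨0, ?_⟩
      rw [map_zero, sub_zero]
      simpa using hm
    | succ n ih =>
      intro m hm
      obtain ⟨c₀, hc₀⟩ := hres m hm
      have h1 := le_exp_of_lt hc₀
      obtain ⟨c', hc'⟩ := ih ((m - algebraMap F M c₀) / algebraMap F M π) (by
        rw [map_div₀, hπM]
        exact (div_le_one₀ exp_pos).2 h1)
      refine ⟨c₀ + π * c', ?_⟩
      have e : m - algebraMap F M (c₀ + π * c') = algebraMap F M π *
          ((m - algebraMap F M c₀) / algebraMap F M π - algebraMap F M c') := by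
        rw [map_add, map_mul]
        field_simp
        ring
      rw [e, map_mul, hπM]
      calc _ ≤ exp (-1 : ℤ) * exp (-(n : ℤ)) := mul_le_mul' le_rfl hc'
        _ = exp (-((n + 1 : ℕ) : ℤ)) := by
          rw [← exp_add]
          congr 1
          push_cast
          ring
  by_cases h0 : m = 0
  · refine ⟨0, ?_⟩
    rw [h0, map_zero, sub_zero, map_zero]
    exact zero_le'
  obtain ⟨k, hk⟩ : ∃ k : ℕ, w.valuation M (m * (algebraMap F M π) ^ k) ≤ 1 := by
    have hv : w.valuation M m ≠ 0 := (Valuation.ne_zero_iff _).2 h0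
    obtain ⟨r, hr⟩ : ∃ r : ℤ, w.valuation M m = exp r := ⟨log _, (exp_log hv).symm⟩
    refine ⟨r.toNat, ?_⟩
    rw [map_mul, map_pow, hπM, ← exp_nsmul, hr, ← exp_add, ← exp_zero, exp_le_exp, nsmul_eq_mul]
    have := Int.self_le_toNat r
    push_cast
    omega
  obtain ⟨c, hc⟩ := key (n + k) _ hk
  refine ⟨c / π ^ k, ?_⟩
  have e : m - algebraMap F M (c / π ^ k) =
      (m * (algebraMap F M π) ^ k - algebraMap F M c) / (algebraMap F M π) ^ k := by
    rw [map_div₀, map_pow]
    field_simp
  rw [e, map_div₀, map_pow, hπM, ← exp_nsmul, div_le_iff₀ exp_pos, ← exp_add]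
  refine hc.trans ?_
  rw [exp_le_exp, nsmul_eq_mul]
  push_cast
  omega

/-- The completion of `M` at a prime of degree one maps to the completion of `F`. -/
theorem back (v : HeightOneSpectrum (𝓞 F)) (w : HeightOneSpectrum (𝓞 M))
    (hvw : ∀ x : F, w.valuation M (algebraMap F M x) = v.valuation F x)
    (hres : ∀ m : M, w.valuation M m ≤ 1 → ∃ c : F, w.valuation M (m - algebraMap F M c) < 1) :
    ∃ ρ : w.adicCompletion M →+* v.adicCompletion F, ∀ x : F,
      ρ (algebraMap M (w.adicCompletion M) (algebraMap F M x)) =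
        algebraMap F (v.adicCompletion F) x := by
  obtain ⟨ι, hι, hι1, -⟩ := Pool.Agent.TH115.GD.exists_compl_map v w (algebraMap F M)
    (fun x hx => by rw [hvw]; exact hx) (fun x hx => by rw [hvw]; exact hx)
  obtain ⟨π, hπ⟩ := v.valuation_exists_uniformizer F
  have hπ0 : π ≠ 0 := by
    rintro rfl
    rw [map_zero] at hπ
    exact exp_ne_zero hπ.symm
  have hvF : ∀ x : F, Valued.v (algebraMap F (v.adicCompletion F) x) = v.valuation F x :=
    fun x => HeightOneSpectrum.valuedAdicCompletion_eq_valuation' v x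
  have hvM : ∀ x : M, Valued.v (algebraMap M (w.adicCompletion M) x) = w.valuation M x :=
    fun x => HeightOneSpectrum.valuedAdicCompletion_eq_valuation' w x
  have hle : ∀ (y : v.adicCompletion F) (n : ℕ), Valued.v y ≤ exp (-(n : ℤ)) →
      Valued.v (ι y) ≤ exp (-(n : ℤ)) := by
    intro y n hy
    have hpn : algebraMap F (v.adicCompletion F) (π ^ n) ≠ 0 := (map_ne_zero _).2 (pow_ne_zero n hπ0)
    have hvn : Valued.v (algebraMap F (v.adicCompletion F) (π ^ n)) = exp (-(n : ℤ)) := by
      rw [hvF, map_pow, hπ, ← exp_nsmul]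
      congr 1
      simp
    have e : y = algebraMap F (v.adicCompletion F) (π ^ n) *
        (y / algebraMap F (v.adicCompletion F) (π ^ n)) := by
      field_simp
    have h1 : Valued.v (y / algebraMap F (v.adicCompletion F) (π ^ n)) ≤
        (1 : WithZero (Multiplicative ℤ)) := by
      rw [map_div₀, hvn]
      exact (div_le_one₀ exp_pos).2 hy
    rw [e, map_mul ι, map_mul, hι, hvM, hvw, map_pow, hπ]
    calc exp (-1 : ℤ) ^ n * Valued.v (ι (y / algebraMap F (v.adicCompletion F) (π ^ n)))
        ≤ exp (-1 : ℤ) ^ n * 1 := mul_le_mul' le_rfl (hι1 _ h1)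
      _ = exp (-(n : ℤ)) := by
        rw [mul_one, ← exp_nsmul]
        congr 1
        simp
  have hsurj : Function.Surjective ι := by
    intro z
    have h1 : ∀ n : ℕ, ∃ c : F,
        Valued.v (z - algebraMap M (w.adicCompletion M) (algebraMap F M c)) ≤ exp (-(n : ℤ)) := by
      intro n
      obtain ⟨m, hm⟩ := near w z n
      obtain ⟨c, hc⟩ := dns v w hvw hres n m
      refine ⟨c, ?_⟩
      have e : z - algebraMap M (w.adicCompletion M) (algebraMap F M c) =
          (z - algebraMap M (w.adicCompletion M) m) +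
            algebraMap M (w.adicCompletion M) (m - algebraMap F M c) := by
        rw [map_sub]
        ring
      rw [e]
      exact (Valuation.map_add _ _ _).trans (max_le hm (by rw [hvM]; exact hc))
    choose c hc using h1
    obtain ⟨y, hy⟩ := lim_seq v (fun n => algebraMap F (v.adicCompletion F) (c n)) (fun n => by
      change Valued.v (algebraMap F (v.adicCompletion F) (c (n + 1)) -
        algebraMap F (v.adicCompletion F) (c n)) ≤ exp (-(n : ℤ))
      rw [← map_sub, hvF, ← hvw, ← hvM]
      have e : algebraMap M (w.adicCompletion M) (algebraMap F M (c (n + 1) - c n)) =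
          (z - algebraMap M (w.adicCompletion M) (algebraMap F M (c n))) -
            (z - algebraMap M (w.adicCompletion M) (algebraMap F M (c (n + 1)))) := by
        rw [map_sub, map_sub]
        ring
      rw [e]
      refine (Valuation.map_sub _ _ _).trans (max_le (hc n) ((hc (n + 1)).trans ?_))
      rw [exp_le_exp]
      push_cast
      omega)
    refine ⟨y, ?_⟩
    rw [← sub_eq_zero, ← Valuation.zero_iff (Valued.v (R := w.adicCompletion M))]
    refine eq_zero_of_le fun n => ?_
    have e : ι y - z = ι (y - algebraMap F (v.adicCompletion F) (c n)) -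
        (z - algebraMap M (w.adicCompletion M) (algebraMap F M (c n))) := by
      rw [map_sub, hι]
      ring
    rw [e]
    exact (Valuation.map_sub _ _ _).trans (max_le (hle _ n (hy n)) (hc n))
  let e := RingEquiv.ofBijective ι ⟨ι.injective, hsurj⟩
  refine ⟨e.symm.toRingHom, fun x => ?_⟩
  change e.symm _ = _
  rw [RingEquiv.symm_apply_eq]
  exact (hι x).symm

end spl

end Run7.h23.Gn
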