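import Pool.Agent.Run7.h23.Gn.Cpl
import Pool.Agent.Run7.h23.Dns
import Pool.Agent.N459.PF.Ram
import Pool.Agent.N891.PQ.TwA

/-!
# Primes over primes in extensions of number fields
-/

set_option autoImplicit false
set_option linter.all false

open Polynomial IsDedekindDomain WithZero NumberField
open scoped Classical IntermediateField

namespace Run7.h23.Gn

open Pool.Agent.N783.PF (Ov fF rd)

section ab

variable {F E : Type} [Field F] [NumberField F] [Field E] [NumberField E] [Algebra F E]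

/-- `𝔓` lies over `v`. -/
def Ab (v : HeightOneSpectrum (𝓞 F)) (𝔓 : HeightOneSpectrum (𝓞 E)) : Prop :=
  ∀ x : F, v.valuation F x < 1 → 𝔓.valuation E (algebraMap F E x) < 1

theorem ov_of_ab {v : HeightOneSpectrum (𝓞 F)} {𝔓 : HeightOneSpectrum (𝓞 E)} (h : Ab v 𝔓) :
    Ov v.asIdeal 𝔓 := by
  intro a ha
  have h1 := h (a : F) ((HeightOneSpectrum.valuation_lt_one_iff_mem (K := F) v a).2 ha)
  rw [← HeightOneSpectrum.valuation_lt_one_iff_mem (K := E)]
  exact h1

theorem eq_under {v : HeightOneSpectrum (𝓞 F)} {𝔓 : HeightOneSpectrum (𝓞 E)}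
    (h : Ov v.asIdeal 𝔓) : v = 𝔓.under (𝓞 F) := by
  ext1
  exact v.isMaximal.eq_of_le (𝔓.under (𝓞 F)).isPrime.ne_top fun a ha => h a ha

theorem ab_e {v : HeightOneSpectrum (𝓞 F)} {𝔓 : HeightOneSpectrum (𝓞 E)} (h : Ov v.asIdeal 𝔓) :
    ∃ e : ℕ, e ≠ 0 ∧ ∀ x : F, 𝔓.valuation E (algebraMap F E x) = v.valuation F x ^ e := by
  have hv' := eq_under h
  subst hv'
  haveI : 𝔓.asIdeal.LiesOver (𝔓.under (𝓞 F)).asIdeal := ⟨rfl⟩
  have hv := HeightOneSpectrum.valuation_liesOver (K := F) E (𝔓.under (𝓞 F)) 𝔓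
  have he : (𝔓.under (𝓞 F)).asIdeal.ramificationIdx' 𝔓.asIdeal ≠ 0 :=
    Ideal.IsDedekindDomain.ramificationIdx'_ne_zero_of_liesOver 𝔓.asIdeal (𝔓.under (𝓞 F)).ne_bot
  exact ⟨_, he, fun x => (hv x).symm⟩

theorem ab_of_ov {v : HeightOneSpectrum (𝓞 F)} {𝔓 : HeightOneSpectrum (𝓞 E)}
    (h : Ov v.asIdeal 𝔓) : Ab v 𝔓 := by
  obtain ⟨e, he, hv⟩ := ab_e h
  intro x hx
  rw [hv]
  exact pow_lt_one' hx he

theorem ab_iff {v : HeightOneSpectrum (𝓞 F)} {𝔓 : HeightOneSpectrum (𝓞 E)} :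
    Ab v 𝔓 ↔ Ov v.asIdeal 𝔓 := ⟨ov_of_ab, ab_of_ov⟩

theorem exists_ab (𝔓 : HeightOneSpectrum (𝓞 E)) : ∃ v : HeightOneSpectrum (𝓞 F), Ab v 𝔓 :=
  ⟨𝔓.under (𝓞 F), ab_of_ov fun a ha => ha⟩

theorem ab_unique {v v' : HeightOneSpectrum (𝓞 F)} {𝔓 : HeightOneSpectrum (𝓞 E)} (h : Ab v 𝔓)
    (h' : Ab v' 𝔓) : v = v' := by
  rw [eq_under (ov_of_ab h), eq_under (ov_of_ab h')]

theorem val_lt_iff {v : HeightOneSpectrum (𝓞 F)} {𝔓 : HeightOneSpectrum (𝓞 E)} (h : Ab v 𝔓)
    (x : F) : 𝔓.valuation E (algebraMap F E x) < 1 ↔ v.valuation F x < 1 := by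
  obtain ⟨e, he, hv⟩ := ab_e (ov_of_ab h)
  rw [hv]
  exact pow_lt_one_iff he

theorem val_eq_iff {v : HeightOneSpectrum (𝓞 F)} {𝔓 : HeightOneSpectrum (𝓞 E)} (h : Ab v 𝔓)
    (x : F) : 𝔓.valuation E (algebraMap F E x) = 1 ↔ v.valuation F x = 1 := by
  obtain ⟨e, he, hv⟩ := ab_e (ov_of_ab h)
  rw [hv]
  exact pow_eq_one_iff_of_nonneg zero_le' he

theorem lies_ab {v : HeightOneSpectrum (𝓞 F)} {𝔓 : HeightOneSpectrum (𝓞 E)} (h : Ab v 𝔓) :
    Pool.Agent.N874.PM.Lies (M := F) (Ω := E) v 𝔓 := by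
  obtain ⟨e, he, hv⟩ := ab_e (ov_of_ab h)
  refine ⟨fun x hx => ?_, fun x hx => ?_⟩
  · rw [hv]
    exact pow_le_one' hx e
  · rw [hv]
    exact pow_lt_one' hx he

/-- `v` is unramified in `E`. -/
def Un (v : HeightOneSpectrum (𝓞 F)) (E : Type) [Field E] [NumberField E] [Algebra F E] : Prop :=
  ∀ w : HeightOneSpectrum (𝓞 E), Ab v w →
    ∀ x : F, w.valuation E (algebraMap F E x) = v.valuation F x

/-- `v` splits completely in `E`. -/
def Sp (v : HeightOneSpectrum (𝓞 F)) (E : Type) [Field E] [NumberField E] [Algebra F E] : Prop :=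
  ∀ w : HeightOneSpectrum (𝓞 E), Ab v w →
    (∀ x : F, w.valuation E (algebraMap F E x) = v.valuation F x) ∧
    ∀ m : E, w.valuation E m ≤ 1 → ∃ c : F, w.valuation E (m - algebraMap F E c) < 1

theorem Sp.un {v : HeightOneSpectrum (𝓞 F)} (h : Sp v E) : Un v E := fun w hw => (h w hw).1

theorem un_of {v : HeightOneSpectrum (𝓞 F)} {w : HeightOneSpectrum (𝓞 E)}
    (h1 : v.asIdeal.map (algebraMap (𝓞 F) (𝓞 E)) ≤ w.asIdeal)
    (h2 : ¬ v.asIdeal.map (algebraMap (𝓞 F) (𝓞 E)) ≤ w.asIdeal ^ 2) (x : F) :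
    w.valuation E (algebraMap F E x) = v.valuation F x := by
  have hov : Ov v.asIdeal w := fun a ha => h1 (Ideal.mem_map_of_mem _ ha)
  have hv' := eq_under hov
  subst hv'
  haveI : w.asIdeal.LiesOver (w.under (𝓞 F)).asIdeal := ⟨rfl⟩
  have hv := HeightOneSpectrum.valuation_liesOver (K := F) E (w.under (𝓞 F)) w x
  rw [← hv]
  have he : (w.under (𝓞 F)).asIdeal.ramificationIdx' w.asIdeal = 1 := by
    refine Ideal.ramificationIdx'_spec ?_ ?_
    · rwa [pow_one]
    · exact h2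
  rw [he, pow_one]

end ab

/-! ### Unramified primes -/

section gen

variable {F F' : Type} (O O' : Type) [Field F] [NumberField F] [Field F'] [NumberField F']
  [Algebra F F'] [CommRing O] [IsDedekindDomain O]
  [Algebra O F] [IsFractionRing O F]
  [IsIntegralClosure O ℤ F]
  [CommRing O'] [IsDedekindDomain O'] [Algebra O' F'] [IsFractionRing O' F']
  [IsIntegralClosure O' ℤ F']

/-- The primes at which `f'(θ)` is a unit are unramified. -/
theorem unr_top {f : O[X]} {θ : F'}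
    (hmon : f.Monic) (hroot : aeval θ (f.map (algebraMap O F)) = 0) (htop : F⟮θ⟯ = ⊤)
    (𝔓 : HeightOneSpectrum O')
    (h3 : 𝔓.valuation F' (aeval θ (derivative (f.map (algebraMap O F)))) = 1) :
    ∃ w : HeightOneSpectrum O, ∀ x : F, 𝔓.valuation F' (algebraMap F F' x) = w.valuation F x := by
  let _ : Algebra O F' := ((algebraMap F F').comp (algebraMap O F)).toAlgebra
  have t1 : IsScalarTower O F F' := IsScalarTower.of_algebraMap_eq fun _ => rfl
  have t3 : Algebra.IsIntegral ℤ O := IsIntegralClosure.isIntegral_algebra ℤ F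
  let l : O →ₐ[ℤ] O' := IsIntegralClosure.lift ℤ O' F'
  let _ : Algebra O O' := l.toRingHom.toAlgebra
  have t4 : IsScalarTower O O' F' := IsScalarTower.of_algebraMap_eq fun x =>
    (IsIntegralClosure.algebraMap_lift ℤ O' F' x).symm
  have t6 : IsIntegralClosure O' O F' := IsIntegralClosure.tower_top (R := ℤ)
  have t7 : Algebra.IsIntegral O O' := IsIntegralClosure.isIntegral_algebra O F'
  have hfin : FiniteDimensional F F' := Module.Finite.of_restrictScalars_finite ℚ F F'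
  have hinj : Function.Injective (algebraMap O O') := by
    have h1 : Function.Injective (algebraMap O F') := by
      rw [IsScalarTower.algebraMap_eq O F F']
      exact (algebraMap F F').injective.comp (IsFractionRing.injective O F)
    rw [IsScalarTower.algebraMap_eq O O' F'] at h1
    exact Function.Injective.of_comp h1
  have hp0 : 𝔓.asIdeal.under O ≠ ⊥ := by
    intro h0
    exact 𝔓.ne_bot (Ideal.eq_bot_of_comap_eq_bot h0)
  let v : HeightOneSpectrum O := ⟨𝔓.asIdeal.under O, inferInstance, hp0⟩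
  have hl : 𝔓.asIdeal.LiesOver v.asIdeal := ⟨rfl⟩
  have hroot' : aeval θ f = 0 := by
    rw [aeval_map_algebraMap] at hroot
    exact hroot
  have hintO : IsIntegral O θ := ⟨f, hmon, by rw [← aeval_def]; exact hroot'⟩
  have hint : IsIntegral ℤ θ := isIntegral_trans (A := O) θ hintO
  obtain ⟨y, hy⟩ := (IsIntegralClosure.isIntegral_iff (R := ℤ) (A := O')).1 hint
  have hadj : Algebra.adjoin F {algebraMap O' F' y} = ⊤ := by
    have h1 : IsIntegral F θ := hint.tower_top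
    have h2 := IntermediateField.adjoin_simple_toSubalgebra_of_isAlgebraic h1.isAlgebraic
    rw [hy, ← h2, htop, IntermediateField.top_toSubalgebra]
  refine ⟨v, fun x => Pool.Agent.N603.PM.UR.core O F F' O' y hadj 𝔓 ?_ v x⟩
  intro hmem
  have : FaithfulSMul O O' := (faithfulSMul_iff_algebraMap_injective O O').2 hinj
  have : Module.IsTorsionFree O O' := inferInstance
  have hgy : aeval y f = 0 := by
    apply IsFractionRing.injective O' F'
    rw [map_zero, ← Polynomial.aeval_algebraMap_apply, hy]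
    exact hroot'
  have hint' : IsIntegral O y := ⟨f, hmon, by rw [← aeval_def]; exact hgy⟩
  have hdvd : minpoly O y ∣ f := minpoly.isIntegrallyClosed_dvd hint' hgy
  obtain ⟨q, hq⟩ := hdvd
  have h1 : aeval y (derivative f) = aeval y (derivative (minpoly O y)) * aeval y q := by
    have h2 := congrArg (fun p : O[X] => aeval y (derivative p)) hq
    simp only [derivative_mul, map_add, map_mul, minpoly.aeval, zero_mul, add_zero] at h2
    rw [← h2]
  have h2 : aeval y (derivative f) ∈ 𝔓.asIdeal := by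
    rw [h1]
    exact Ideal.mul_mem_right _ _ hmem
  have h4 : 𝔓.valuation F' (algebraMap O' F' (aeval y (derivative f))) < 1 := by
    rw [HeightOneSpectrum.valuation_lt_one_iff_mem]
    exact h2
  rw [derivative_map, aeval_map_algebraMap] at h3
  rw [← Polynomial.aeval_algebraMap_apply, hy, h3] at h4
  exact lt_irrefl _ h4

end gen

section up

variable {F L M Ω : Type} [Field F] [NumberField F] [Field L] [NumberField L] [Field M]
  [NumberField M] [Field Ω] [NumberField Ω] [Algebra F L] [Algebra F M] [Algebra L Ω]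
  [Algebra M Ω] [Algebra F Ω] [IsScalarTower F L Ω] [IsScalarTower F M Ω]

theorem ab_tr {v : HeightOneSpectrum (𝓞 F)} {𝔓 : HeightOneSpectrum (𝓞 L)}
    {𝔓' : HeightOneSpectrum (𝓞 Ω)} (h : Ab v 𝔓) (h' : Ab 𝔓 𝔓') : Ab (E := Ω) v 𝔓' := by
  intro x hx
  rw [IsScalarTower.algebraMap_apply F L Ω]
  exact h' _ (h x hx)

theorem ab_down {v : HeightOneSpectrum (𝓞 F)} {𝔓 : HeightOneSpectrum (𝓞 L)}
    {𝔓' : HeightOneSpectrum (𝓞 Ω)} (h : Ab (E := Ω) v 𝔓') (h' : Ab 𝔓 𝔓') : Ab v 𝔓 := by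
  intro x hx
  rw [← val_lt_iff h', ← IsScalarTower.algebraMap_apply F L Ω]
  exact h x hx

/-- The polynomial over `M`. -/
theorem fF_map (f : (𝓞 F)[X]) : fF (f.map (algebraMap (𝓞 F) (𝓞 M))) =
    (fF f).map (algebraMap F M) := by
  rw [fF, fF, Polynomial.map_map, Polynomial.map_map]
  congr 1

theorem root_up {f : (𝓞 F)[X]} {θ : L} (hroot : aeval θ (fF f) = 0) :
    aeval (algebraMap L Ω θ) (fF (f.map (algebraMap (𝓞 F) (𝓞 M)))) = 0 := by
  rw [fF_map, aeval_map_algebraMap, aeval_algebraMap_apply, hroot, map_zero]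

theorem der_up (f : (𝓞 F)[X]) (θ : L) :
    aeval (algebraMap L Ω θ) (derivative (fF (f.map (algebraMap (𝓞 F) (𝓞 M))))) =
      algebraMap L Ω (aeval θ (derivative (fF f))) := by
  rw [fF_map, derivative_map, aeval_map_algebraMap, aeval_algebraMap_apply]

/-- The primes of `Ω` at which `f'(θ)` is a unit are unramified over `M`. -/
theorem over_M {f : (𝓞 F)[X]} {θ : L} (hmon : f.Monic) (hroot : aeval θ (fF f) = 0)
    (hθ : M⟮algebraMap L Ω θ⟯ = ⊤) (𝔓 : HeightOneSpectrum (𝓞 Ω))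
    (h2 : 𝔓.valuation Ω (algebraMap L Ω (aeval θ (derivative (fF f)))) = 1) :
    ∃ w : HeightOneSpectrum (𝓞 M), ∀ x : M,
      𝔓.valuation Ω (algebraMap M Ω x) = w.valuation M x := by
  refine unr_top (𝓞 M) (𝓞 Ω) (f := f.map (algebraMap (𝓞 F) (𝓞 M))) (hmon.map _)
    (root_up hroot) hθ 𝔓 ?_
  rw [← der_up (M := M)] at h2
  exact h2

/-- Primes at which `f'(θ)` is a unit, over a prime which is unramified in `M`. -/
theorem up {f : (𝓞 F)[X]} {θ : L} (hmon : f.Monic) (hroot : aeval θ (fF f) = 0)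
    (hθ : M⟮algebraMap L Ω θ⟯ = ⊤) {v : HeightOneSpectrum (𝓞 F)} (hun : Un v M)
    (𝔓 : HeightOneSpectrum (𝓞 L)) (h1 : Ab v 𝔓)
    (h2 : 𝔓.valuation L (aeval θ (derivative (fF f))) = 1) :
    ∃ 𝔓' : HeightOneSpectrum (𝓞 Ω),
      (∀ x : L, 𝔓'.valuation Ω (algebraMap L Ω x) = 𝔓.valuation L x) ∧
      ∃ w : HeightOneSpectrum (𝓞 M),
        (∀ x : M, 𝔓'.valuation Ω (algebraMap M Ω x) = w.valuation M x) ∧ Ab v w := by
  obtain ⟨𝔓', e', he'⟩ := over_e (𝓞 L) (𝓞 Ω) (F := L) (F' := Ω) 𝔓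
  have hab : Ab 𝔓 𝔓' := by
    obtain ⟨𝔭, h𝔭⟩ := exists_ab (F := L) 𝔓'
    obtain ⟨π, hπ⟩ := 𝔭.valuation_exists_uniformizer L
    have h3 : 𝔓'.valuation Ω (algebraMap L Ω π) < 1 := by
      apply h𝔭
      rw [hπ, ← exp_zero, exp_lt_exp]
      norm_num
    have he0 : e' ≠ 0 := by
      rintro rfl
      rw [he', pow_zero] at h3
      exact lt_irrefl _ h3
    intro x hx
    rw [he']
    exact pow_lt_one' hx he0
  obtain ⟨e, he0, he⟩ := ab_e (ov_of_ab hab)
  obtain ⟨w, hw⟩ := over_M (M := M) hmon hroot hθ 𝔓' (by rw [he, h2, one_pow])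
  have hvw : Ab v w := by
    intro x hx
    rw [← hw, ← IsScalarTower.algebraMap_apply F M Ω, IsScalarTower.algebraMap_apply F L Ω]
    exact hab _ (h1 x hx)
  obtain ⟨π, hπ⟩ := v.valuation_exists_uniformizer F
  have h4 := hun w hvw π
  rw [hπ, ← hw, ← IsScalarTower.algebraMap_apply F M Ω, IsScalarTower.algebraMap_apply F L Ω,
    he] at h4
  have h5 := exp_pow' h4
  subst h5
  exact ⟨𝔓', fun x => by rw [he, pow_one], w, hw, hvw⟩

/-- Irreducibility modulo a prime over a prime which splits completely. -/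
theorem irr_w {v : HeightOneSpectrum (𝓞 F)} (hsp : Sp v M) {w : HeightOneSpectrum (𝓞 M)}
    (hw : Ab v w) {h : (𝓞 F)[X]} (hirr : Irreducible (rd v.asIdeal h)) :
    Irreducible (rd w.asIdeal (h.map (algebraMap (𝓞 F) (𝓞 M)))) := by
  obtain ⟨h1, h2⟩ := hsp w hw
  have hs : Function.Surjective ((Ideal.Quotient.mk w.asIdeal).comp
      (algebraMap (𝓞 F) (𝓞 M))) := by
    intro y
    obtain ⟨y, rfl⟩ := Ideal.Quotient.mk_surjective y
    obtain ⟨c, hc⟩ := h2 (algebraMap (𝓞 M) M y) (HeightOneSpectrum.valuation_le_one _ _)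
    have hc1 : v.valuation F c ≤ 1 := by
      rw [← h1]
      have e : algebraMap F M c = algebraMap (𝓞 M) M y - (algebraMap (𝓞 M) M y -
        algebraMap F M c) := by ring
      rw [e]
      exact (Valuation.map_sub _ _ _).trans
        (max_le (HeightOneSpectrum.valuation_le_one _ _) hc.le)
    obtain ⟨x, hx⟩ := v.exists_valuation_sub_lt_of_integer (K := F) hc1 1
    have hx1 : v.valuation F (algebraMap (𝓞 F) F x - c) < 1 := by exact_mod_cast hx
    refine ⟨x, ?_⟩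
    rw [RingHom.comp_apply, ← sub_eq_zero, ← map_sub, Ideal.Quotient.eq_zero_iff_mem,
      ← HeightOneSpectrum.valuation_lt_one_iff_mem (K := M)]
    change w.valuation M (algebraMap (𝓞 M) M (algebraMap (𝓞 F) (𝓞 M) x - y)) < 1
    have e : algebraMap (𝓞 M) M (algebraMap (𝓞 F) (𝓞 M) x - y) =
        algebraMap F M (algebraMap (𝓞 F) F x - c) - (algebraMap (𝓞 M) M y -
          algebraMap F M c) := by
      rw [map_sub, map_sub, ← IsScalarTower.algebraMap_apply (𝓞 F) (𝓞 M) M,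
        IsScalarTower.algebraMap_apply (𝓞 F) F M]
      ring
    rw [e]
    refine lt_of_le_of_lt (Valuation.map_sub _ _ _) (max_lt ?_ hc)
    rw [h1]
    exact hx1
  have hker : v.asIdeal = RingHom.ker ((Ideal.Quotient.mk w.asIdeal).comp
      (algebraMap (𝓞 F) (𝓞 M))) := by
    refine Ideal.IsMaximal.eq_of_le v.isMaximal ?_ ?_
    · haveI := Ideal.Quotient.nontrivial_iff.2 w.isPrime.ne_top
      exact RingHom.ker_ne_top _
    · intro a ha
      rw [RingHom.mem_ker, RingHom.comp_apply, Ideal.Quotient.eq_zero_iff_mem]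
      exact ov_of_ab hw a ha
  let φ : (𝓞 F ⧸ v.asIdeal) ≃+* (𝓞 M ⧸ w.asIdeal) :=
    (Ideal.quotEquivOfEq hker).trans (RingHom.quotientKerEquivOfSurjective hs)
  have hφ : ∀ c : 𝓞 F, φ (Ideal.Quotient.mk _ c) = Ideal.Quotient.mk w.asIdeal
      (algebraMap (𝓞 F) (𝓞 M) c) := fun c => rfl
  have e : rd w.asIdeal (h.map (algebraMap (𝓞 F) (𝓞 M))) =
      Polynomial.mapEquiv φ (rd v.asIdeal h) := by
    rw [Polynomial.mapEquiv_apply, rd, rd, Polynomial.map_map, Polynomial.map_map]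
    congr 1
  rw [e]
  exact (MulEquiv.irreducible_iff (Polynomial.mapEquiv φ)).2 hirr

/-- Density of `L` in `Ω` at the primes over a prime which splits completely. -/
theorem dens_up {f : (𝓞 F)[X]} {θ : L}
    (hθ : M⟮algebraMap L Ω θ⟯ = ⊤) {v : HeightOneSpectrum (𝓞 F)} (hsp : Sp v M)
    {𝔓 : HeightOneSpectrum (𝓞 Ω)} {w : HeightOneSpectrum (𝓞 M)} (hw : Ab v w)
    (hv : ∀ x : M, 𝔓.valuation Ω (algebraMap M Ω x) = w.valuation M x)
    (hint : 𝔓.valuation Ω (algebraMap L Ω θ) ≤ 1) (s : Ω) (hs : s ≠ 0) :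
    ∃ s₀ : L, 𝔓.valuation Ω (s - algebraMap L Ω s₀) < 𝔓.valuation Ω s := by
  haveI : FiniteDimensional M Ω := Module.Finite.of_restrictScalars_finite ℚ M Ω
  refine dn4 (𝓞 Ω) hθ 𝔓 hint ?_ s hs
  intro m ε hε
  obtain ⟨b, rfl⟩ : ∃ b : ℤ, ε = exp b := ⟨log ε, (exp_log hε).symm⟩
  obtain ⟨c, hc⟩ := dns v w (hsp w hw).1 (hsp w hw).2 ((-b).toNat + 1) m
  refine ⟨algebraMap F L c, ?_⟩
  rw [← IsScalarTower.algebraMap_apply F L Ω, IsScalarTower.algebraMap_apply F M Ω, ← map_sub, hv]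
  refine lt_of_le_of_lt hc ?_
  rw [exp_lt_exp]
  have := Int.self_le_toNat (-b)
  push_cast
  omega

end up

end Run7.h23.Gn
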